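import Mathlib
import Pool.Agent.Lib.MP_009fd8_ag.Approx

/-!
MP_009fd8_ag, example K = Q(ζ5), leaf: the place above 5.
-/

namespace Pool.Agent.MP009fd8Q

open NumberField IsDedekindDomain

theorem aboveFive_mem (K : Type) [Field K] [NumberField K] (v : HeightOneSpectrum (𝓞 K))
    (hv : v.valuation K ((5 : ℕ) : K) < 1) : ((5 : ℕ) : 𝓞 K) ∈ v.asIdeal := by
  have h : v.valuation K (algebraMap (𝓞 K) K ((5 : ℕ) : 𝓞 K)) < 1 := by
    rw [map_natCast]; exact hv
  exact (v.valuation_lt_one_iff_mem (K := K) _).1 h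

theorem aboveFive_span (K : Type) [Field K] [NumberField K]
    [IsCyclotomicExtension {5} ℚ K] {ζ : K} (hζ : IsPrimitiveRoot ζ 5)
    (v : HeightOneSpectrum (𝓞 K)) (hv : v.valuation K ((5 : ℕ) : K) < 1) :
    v.asIdeal = Ideal.span {hζ.toInteger - 1} := by
  have : Fact (Nat.Prime 5) := ⟨by norm_num⟩
  have : v.asIdeal.IsPrime := v.isPrime
  have : v.asIdeal.LiesOver (Ideal.span {((5 : ℕ) : ℤ)}) := by
    rw [Ideal.liesOver_iff]
    refine Ideal.IsMaximal.eq_of_le (Int.ideal_span_isMaximal_of_prime 5)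
      Ideal.IsPrime.ne_top' ?_
    rw [Ideal.span_singleton_le_iff_mem, Ideal.mem_comap, algebraMap_int_eq, map_natCast]
    exact aboveFive_mem K v hv
  exact IsCyclotomicExtension.Rat.eq_span_zeta_sub_one_of_liesOver' 5 K hζ v.asIdeal

/-- `v(1 - ζ) = 1` at the place above 5.

Proof. Let `π = hζ.toInteger - 1`. `Ideal.span {π}` is prime, and it is the only prime above 5
(`IsCyclotomicExtension.Rat.eq_span_zeta_sub_one_of_liesOver'`), so `v.asIdeal = span {π}` and
`v.valuation_of_algebraMap`, `v.intValuation_singleton` give the value `exp (-1)`. -/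
theorem valuation_one_sub_zeta (K : Type) [Field K] [NumberField K]
    [IsCyclotomicExtension {5} ℚ K] {ζ : K} (hζ : IsPrimitiveRoot ζ 5)
    (v : HeightOneSpectrum (𝓞 K)) (hv : v.valuation K ((5 : ℕ) : K) < 1) :
    v.valuation K (1 - ζ) = WithZero.exp (-1 : ℤ) := by
  have : Fact (Nat.Prime 5) := ⟨by norm_num⟩
  have h0 : hζ.toInteger - 1 ≠ 0 := by
    intro h
    have h1 : hζ.toInteger = 1 := sub_eq_zero.1 h
    have h2 : ζ = 1 := by
      have := congrArg (algebraMap (𝓞 K) K) h1
      simpa using this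
    exact hζ.ne_one (by norm_num) h2
  have h1 : (1 : K) - ζ = -(algebraMap (𝓞 K) K (hζ.toInteger - 1)) := by
    rw [map_sub, map_one]
    have : algebraMap (𝓞 K) K hζ.toInteger = ζ := rfl
    rw [this]; ring
  rw [h1, Valuation.map_neg, v.valuation_of_algebraMap,
    v.intValuation_singleton h0 (aboveFive_span K hζ v hv)]

/-- The residue field above 5 is the prime field: every integral element of the completion is
congruent to an integer.

Proof. `v.asIdeal = span {ζ - 1}` has norm 5 (`IsCyclotomicExtension.Rat.absNorm_span_zeta_sub_one` or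
inertia degree 1), so every element of `𝓞 K` is congruent to an integer modulo `v` (or directly:
`𝓞 K = ℤ[ζ]` and `ζ = 1` modulo `v`). The image of `𝓞 K` is dense in the ring of integers of the
completion: for `t` in the completion with `v(t) ≤ 1` there is `x : 𝓞 K` with `v(t - x) < 1`
(density of `K` in the completion gives `y : K` with `v(t - y) < 1`, `v(y) ≤ 1`; then
`y = a / s` with `s` not in `v`, choose `b` with `b s - 1` in `v`, and `x = a b`;
see `IsDedekindDomain.HeightOneSpectrum` lemmas such as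
`exists_adicValued_mul_sub_le`, `Valuation.exists_...`). -/
theorem exists_int_close (K : Type) [Field K] [NumberField K]
    [IsCyclotomicExtension {5} ℚ K] {ζ : K} (hζ : IsPrimitiveRoot ζ 5)
    (v : HeightOneSpectrum (𝓞 K)) (hv : v.valuation K ((5 : ℕ) : K) < 1)
    (t : v.adicCompletion K) (ht : Valued.v t ≤ 1) : ∃ i : ℤ, Valued.v (t - i) < 1 := by
  obtain ⟨m, hm⟩ := Pool.Agent.MP009fd8.exists_int_sub_lt v t ht 1 one_pos
  have hspan := aboveFive_span K hζ v hv
  have key : ∀ x : 𝓞 K, ∃ i : ℤ, x - algebraMap ℤ (𝓞 K) i ∈ v.asIdeal := by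
    intro x
    have hx : x ∈ Algebra.adjoin ℤ {hζ.toInteger} := by
      rw [IsCyclotomicExtension.Rat.adjoin_singleton_eq_top hζ]
      exact Algebra.mem_top
    induction hx using Algebra.adjoin_induction with
    | mem x hx =>
      rw [Set.mem_singleton_iff] at hx
      refine ⟨1, ?_⟩
      rw [hx, map_one, hspan]
      exact Ideal.mem_span_singleton_self _
    | algebraMap r => exact ⟨r, by rw [sub_self]; exact v.asIdeal.zero_mem⟩
    | add x y _ _ hx hy =>
      obtain ⟨i, hi⟩ := hx
      obtain ⟨j, hj⟩ := hy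
      refine ⟨i + j, ?_⟩
      have e : x + y - algebraMap ℤ (𝓞 K) (i + j) =
          (x - algebraMap ℤ (𝓞 K) i) + (y - algebraMap ℤ (𝓞 K) j) := by
        rw [map_add]; ring
      rw [e]
      exact v.asIdeal.add_mem hi hj
    | mul x y _ _ hx hy =>
      obtain ⟨i, hi⟩ := hx
      obtain ⟨j, hj⟩ := hy
      refine ⟨i * j, ?_⟩
      have e : x * y - algebraMap ℤ (𝓞 K) (i * j) =
          (x - algebraMap ℤ (𝓞 K) i) * y +
            algebraMap ℤ (𝓞 K) i * (y - algebraMap ℤ (𝓞 K) j) := by
        rw [map_mul]; ring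
      rw [e]
      exact v.asIdeal.add_mem (v.asIdeal.mul_mem_right _ hi) (v.asIdeal.mul_mem_left _ hj)
  obtain ⟨i, hi⟩ := key m
  refine ⟨i, ?_⟩
  have h1 : Valued.v (algebraMap K (v.adicCompletion K)
      (algebraMap (𝓞 K) K (m - algebraMap ℤ (𝓞 K) i))) < 1 := by
    have h2 : v.valuation K (algebraMap (𝓞 K) K (m - algebraMap ℤ (𝓞 K) i)) < 1 :=
      (v.valuation_lt_one_iff_mem (K := K) _).2 hi
    rw [← HeightOneSpectrum.valuedAdicCompletion_eq_valuation' v] at h2
    exact h2
  have h3 : t - (i : v.adicCompletion K) =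
      (t - algebraMap K (v.adicCompletion K) (algebraMap (𝓞 K) K m)) +
        algebraMap K (v.adicCompletion K)
          (algebraMap (𝓞 K) K (m - algebraMap ℤ (𝓞 K) i)) := by
    rw [map_sub, map_sub]
    have h4 : algebraMap K (v.adicCompletion K)
        (algebraMap (𝓞 K) K (algebraMap ℤ (𝓞 K) i)) = (i : v.adicCompletion K) := by
      simp
    rw [h4]; ring
  rw [h3]
  exact Valuation.map_add_lt _ hm h1

end Pool.Agent.MP009fd8Q
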