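import Mathlib

/-!
MP_009fd8_ag, example K = Q(ζ5), leaf: the class number.
-/

namespace Pool.Agent.MP009fd8Q

open NumberField

/-- Proof: `IsCyclotomicExtension.Rat.five_pid` and `NumberField.classNumber_eq_one_iff`. -/
theorem not_dvd_classNumber (K : Type) [Field K] [NumberField K] [IsCyclotomicExtension {5} ℚ K] :
    ¬ 5 ∣ NumberField.classNumber K := by
  have h : NumberField.classNumber K = 1 :=
    NumberField.classNumber_eq_one_iff.2 (IsCyclotomicExtension.Rat.five_pid K)
  rw [h]
  norm_num

end Pool.Agent.MP009fd8Q
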