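import Pool.Agent.Lib.MP_009fd8_agF.CondL
import Pool.Agent.Lib.MP_009fd8_agQ.AboveFive

/-!
MP_009fd8_ag, example K = Q(ζ5), leaf: the condition above 5 for `n = q`, `q = 8, 12, 13, 17`
modulo 25 and `r = 1, 2, 3`.
-/

namespace Pool.Agent.MP009fd8Q

open NumberField IsDedekindDomain
open Pool.Agent.MP009fd8F.Crit

private theorem cf_lt_one {x : WithZero (Multiplicative ℤ)} (h : x < 1) :
    x ≤ WithZero.exp (-1 : ℤ) := by
  rcases eq_or_ne x 0 with rfl | hx
  · exact zero_le
  · rw [← WithZero.exp_log hx, ← WithZero.exp_zero, WithZero.exp_lt_exp] at h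
    rw [← WithZero.exp_log hx, WithZero.exp_le_exp]
    omega

private theorem cf_le {K : Type} [Field K] [NumberField K] (v : HeightOneSpectrum (𝓞 K)) (a : ℤ) :
    Valued.v (a : v.adicCompletion K) ≤ 1 := by
  have h : (a : v.adicCompletion K) ∈
      (Valued.v : Valuation (v.adicCompletion K) _).integer := intCast_mem _ a
  exact h

private theorem cf_five {K : Type} [Field K] [NumberField K] (v : HeightOneSpectrum (𝓞 K))
    (hv : v.valuation K ((5 : ℕ) : K) < 1) : Valued.v ((5 : ℤ) : v.adicCompletion K) < 1 := by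
  have h : ((5 : ℤ) : v.adicCompletion K) = algebraMap K (v.adicCompletion K) ((5 : ℕ) : K) := by
    rw [map_natCast]
    norm_num
  have hval : Valued.v (algebraMap K (v.adicCompletion K) ((5 : ℕ) : K)) =
      v.valuation K ((5 : ℕ) : K) :=
    HeightOneSpectrum.valuedAdicCompletion_eq_valuation' v _
  rw [h, hval]
  exact hv

private theorem cf_dvd {K : Type} [Field K] [NumberField K] (v : HeightOneSpectrum (𝓞 K))
    (hv : v.valuation K ((5 : ℕ) : K) < 1) {a : ℤ} (h : (5 : ℤ) ∣ a) :
    Valued.v (a : v.adicCompletion K) < 1 := by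
  obtain ⟨b, rfl⟩ := h
  rw [Int.cast_mul, map_mul]
  calc Valued.v ((5 : ℤ) : v.adicCompletion K) * Valued.v (b : v.adicCompletion K)
      ≤ Valued.v ((5 : ℤ) : v.adicCompletion K) * 1 := mul_le_mul_right (cf_le v b) _
    _ = Valued.v ((5 : ℤ) : v.adicCompletion K) := mul_one _
    _ < 1 := cf_five v hv

private theorem cf_unit {K : Type} [Field K] [NumberField K] (v : HeightOneSpectrum (𝓞 K))
    (hv : v.valuation K ((5 : ℕ) : K) < 1) {a : ℤ} (h : ¬ (5 : ℤ) ∣ a) :
    Valued.v (a : v.adicCompletion K) = 1 := by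
  refine le_antisymm (cf_le v a) ?_
  by_contra hlt
  rw [not_le] at hlt
  have hco : IsCoprime (5 : ℤ) a :=
    (Int.prime_iff_natAbs_prime.2 (by norm_num)).coprime_iff_not_dvd.2 h
  obtain ⟨s, t, hst⟩ := hco
  have h1 : ((s * 5 : ℤ) : v.adicCompletion K) + ((t * a : ℤ) : v.adicCompletion K) = 1 := by
    rw [← Int.cast_add, hst, Int.cast_one]
  have h2 : Valued.v ((s * 5 : ℤ) : v.adicCompletion K) < 1 :=
    cf_dvd v hv (Dvd.intro_left s rfl)
  have h3 : Valued.v ((t * a : ℤ) : v.adicCompletion K) < 1 := by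
    rw [Int.cast_mul, map_mul]
    calc Valued.v (t : v.adicCompletion K) * Valued.v (a : v.adicCompletion K)
        ≤ 1 * Valued.v (a : v.adicCompletion K) := mul_le_mul_left (cf_le v t) _
      _ = Valued.v (a : v.adicCompletion K) := one_mul _
      _ < 1 := hlt
  have h4 := Valuation.map_add_lt _ h2 h3
  rw [h1, map_one] at h4
  exact lt_irrefl _ h4

private theorem cf_core (K : Type) [Field K] [NumberField K] [IsCyclotomicExtension {5} ℚ K]
    {ζ : K} (hζ : IsPrimitiveRoot ζ 5) (q r : ℕ) (g N : ℤ) (hg : ¬ (5 : ℤ) ∣ g)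
    (hr1 : ¬ (5 : ℤ) ∣ ((r : ℤ) + 1)) (hr0 : ¬ (5 : ℤ) ∣ (r : ℤ))
    (hA : (q : ℤ) ^ (r + 1) * (r : ℤ) ^ r = ((r : ℤ) + 1) ^ (r + 1) * g ^ 5 + 5 * N)
    (h : (5 : ℤ) ∣ N ∨ ∀ i : ℤ, ¬ (5 : ℤ) ∣
      (r : ℤ) * ((r : ℤ) + 1) * i ^ 2 * (((r : ℤ) + 1) ^ (r + 1) * g ^ 5) + 2 * N)
    (v : HeightOneSpectrum (𝓞 K)) (hv : v.valuation K ((5 : ℕ) : K) < 1) :
    CritAt 5 r (1 - ζ) (q : K) 0 v := by
  have hp5 : Prime (5 : ℤ) := Int.prime_iff_natAbs_prime.2 (by norm_num)
  obtain ⟨d, hd⟩ : ∃ d : ℤ, d = ((r : ℤ) + 1) ^ (r + 1) * g ^ 5 := ⟨_, rfl⟩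
  have hd5 : ¬ (5 : ℤ) ∣ d := by
    rw [hd]
    intro h1
    rcases hp5.dvd_or_dvd h1 with h2 | h2
    · exact hr1 (hp5.dvd_of_dvd_pow h2)
    · exact hg (hp5.dvd_of_dvd_pow h2)
  have hvd := cf_unit v hv hd5
  have hd0 : (d : v.adicCompletion K) ≠ 0 := by
    intro h1
    rw [h1, map_zero] at hvd
    exact zero_ne_one hvd
  have hvg := cf_unit v hv hg
  have hg0 : (g : v.adicCompletion K) ≠ 0 := by
    intro h1
    rw [h1, map_zero] at hvg
    exact zero_ne_one hvg
  have hdF : (d : v.adicCompletion K) =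
      ((r : v.adicCompletion K) + 1) ^ (r + 1) * (g : v.adicCompletion K) ^ 5 := by
    rw [hd]
    push_cast
    ring
  have hAF : (q : v.adicCompletion K) ^ (r + 1) * (r : v.adicCompletion K) ^ r =
      (d : v.adicCompletion K) + 5 * (N : v.adicCompletion K) := by
    rw [← hd] at hA
    have h1 := congrArg (fun z : ℤ => (z : v.adicCompletion K)) hA
    push_cast at h1
    exact h1
  have hvκ : Valued.v ((N : v.adicCompletion K) / (d : v.adicCompletion K)) =
      Valued.v (N : v.adicCompletion K) := by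
    rw [map_div₀, hvd, div_one]
  refine ⟨(g : v.adicCompletion K), (N : v.adicCompletion K) / (d : v.adicCompletion K), hg0,
    ?_, ?_⟩
  · rw [map_natCast, hAF]
    have h1 : ((r : v.adicCompletion K) + 1) ^ (r + 1) * ((g : v.adicCompletion K) ^ 5 *
        (1 + ((5 : ℕ) : v.adicCompletion K) *
          ((N : v.adicCompletion K) / (d : v.adicCompletion K)))) =
        (d : v.adicCompletion K) * (1 + ((5 : ℕ) : v.adicCompletion K) *
          ((N : v.adicCompletion K) / (d : v.adicCompletion K))) := by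
      rw [hdF]
      ring
    rw [h1]
    field_simp
    push_cast
    ring
  · rcases h with h | h
    · left
      rw [hvκ, valuation_one_sub_zeta K hζ v hv]
      exact cf_lt_one (cf_dvd v hv h)
    · right
      refine ⟨?_, valuation_one_sub_zeta K hζ v hv, Or.inl ?_⟩
      · rw [hvκ]
        exact cf_le v N
      · intro t ht
        have h2κ : Valued.v (2 * ((N : v.adicCompletion K) / (d : v.adicCompletion K))) ≤ 1 := by
          rw [map_mul, hvκ]
          have h2 : Valued.v (2 : v.adicCompletion K) ≤ 1 := by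
            have h3 := cf_le v 2
            push_cast at h3
            exact h3
          exact mul_le_one' h2 (cf_le v N)
        have hrv : Valued.v (r : v.adicCompletion K) = 1 := by
          have h3 := cf_unit v hv hr0
          push_cast at h3
          exact h3
        have hr1v : Valued.v ((r : v.adicCompletion K) + 1) = 1 := by
          have h3 := cf_unit v hv hr1
          push_cast at h3
          exact h3
        have hrr : Valued.v ((r : v.adicCompletion K) * ((r : v.adicCompletion K) + 1)) = 1 := by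
          rw [map_mul, hrv, hr1v, one_mul]
        have ht2 : Valued.v t ^ 2 ≤ 1 := by
          have h3 : Valued.v ((r : v.adicCompletion K) * ((r : v.adicCompletion K) + 1) *
              t ^ 2) ≤ 1 := by
            have h4 : (r : v.adicCompletion K) * ((r : v.adicCompletion K) + 1) * t ^ 2 =
                ((r : v.adicCompletion K) * ((r : v.adicCompletion K) + 1) * t ^ 2 +
                  2 * ((N : v.adicCompletion K) / (d : v.adicCompletion K))) -
                  2 * ((N : v.adicCompletion K) / (d : v.adicCompletion K)) := by ring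
            rw [h4]
            exact (Valuation.map_sub _ _ _).trans (max_le ht.le h2κ)
          rw [map_mul, hrr, one_mul, map_pow] at h3
          exact h3
        have ht1 : Valued.v t ≤ 1 := (pow_le_one_iff (two_ne_zero)).1 ht2
        obtain ⟨i, hi⟩ := exists_int_close K hζ v hv t ht1
        have hti : Valued.v (t ^ 2 - (i : v.adicCompletion K) ^ 2) < 1 := by
          have h3 : t ^ 2 - (i : v.adicCompletion K) ^ 2 =
              (t - (i : v.adicCompletion K)) * (t + (i : v.adicCompletion K)) := by ring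
          have h4 : Valued.v (t + (i : v.adicCompletion K)) ≤ 1 :=
            (Valuation.map_add _ _ _).trans (max_le ht1 (cf_le v i))
          rw [h3, map_mul]
          calc Valued.v (t - (i : v.adicCompletion K)) * Valued.v (t + (i : v.adicCompletion K))
              ≤ Valued.v (t - (i : v.adicCompletion K)) * 1 := mul_le_mul_right h4 _
            _ = Valued.v (t - (i : v.adicCompletion K)) := mul_one _
            _ < 1 := hi
        have h5 : Valued.v ((r : v.adicCompletion K) * ((r : v.adicCompletion K) + 1) *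
            (i : v.adicCompletion K) ^ 2 +
            2 * ((N : v.adicCompletion K) / (d : v.adicCompletion K))) < 1 := by
          have h6 : (r : v.adicCompletion K) * ((r : v.adicCompletion K) + 1) *
              (i : v.adicCompletion K) ^ 2 +
              2 * ((N : v.adicCompletion K) / (d : v.adicCompletion K)) =
              ((r : v.adicCompletion K) * ((r : v.adicCompletion K) + 1) * t ^ 2 +
                2 * ((N : v.adicCompletion K) / (d : v.adicCompletion K))) -
              (r : v.adicCompletion K) * ((r : v.adicCompletion K) + 1) *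
                (t ^ 2 - (i : v.adicCompletion K) ^ 2) := by ring
          rw [h6]
          refine Valuation.map_sub_lt _ ht ?_
          rw [map_mul, hrr, one_mul]
          exact hti
        have h7 : (((r : ℤ) * ((r : ℤ) + 1) * i ^ 2 * (((r : ℤ) + 1) ^ (r + 1) * g ^ 5) +
            2 * N : ℤ) : v.adicCompletion K) =
            ((r : v.adicCompletion K) * ((r : v.adicCompletion K) + 1) *
            (i : v.adicCompletion K) ^ 2 +
            2 * ((N : v.adicCompletion K) / (d : v.adicCompletion K))) *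
              (d : v.adicCompletion K) := by
          rw [← hd]
          push_cast
          field_simp
        have h8 : Valued.v (((r : ℤ) * ((r : ℤ) + 1) * i ^ 2 *
            (((r : ℤ) + 1) ^ (r + 1) * g ^ 5) + 2 * N : ℤ) : v.adicCompletion K) < 1 := by
          rw [h7, map_mul, hvd, mul_one]
          exact h5
        have h9 := cf_unit v hv (h i)
        rw [h9] at h8
        exact lt_irrefl _ h8

private theorem cf_check (a b M : ℤ) (hab : ∀ s : ℤ, (s = 0 ∨ s = 1 ∨ s = 4) →
    ¬ (5 : ℤ) ∣ a * s + b) (i : ℤ) : ¬ (5 : ℤ) ∣ a * i ^ 2 + (b + 5 * M) := by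
  intro h
  have hi : ∃ s m : ℤ, (s = 0 ∨ s = 1 ∨ s = 4) ∧ i ^ 2 = s + 5 * m := by
    have h5 : i % 5 = 0 ∨ i % 5 = 1 ∨ i % 5 = 2 ∨ i % 5 = 3 ∨ i % 5 = 4 := by omega
    obtain ⟨j, hj⟩ : ∃ j, i = 5 * j + i % 5 := ⟨i / 5, (Int.mul_ediv_add_emod i 5).symm⟩
    rcases h5 with h5 | h5 | h5 | h5 | h5 <;> rw [h5] at hj
    · exact ⟨0, 5 * j ^ 2, Or.inl rfl, by rw [hj]; ring⟩
    · exact ⟨1, 5 * j ^ 2 + 2 * j, Or.inr (Or.inl rfl), by rw [hj]; ring⟩
    · exact ⟨4, 5 * j ^ 2 + 4 * j, Or.inr (Or.inr rfl), by rw [hj]; ring⟩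
    · exact ⟨4, 5 * j ^ 2 + 6 * j + 1, Or.inr (Or.inr rfl), by rw [hj]; ring⟩
    · exact ⟨1, 5 * j ^ 2 + 8 * j + 3, Or.inr (Or.inl rfl), by rw [hj]; ring⟩
  obtain ⟨s, m, hs, hm⟩ := hi
  refine hab s hs ?_
  rw [hm] at h
  have e : a * (s + 5 * m) + (b + 5 * M) = (a * s + b) + 5 * (a * m + M) := by ring
  rw [e] at h
  exact (dvd_add_left (dvd_mul_right 5 _)).1 h

/-- Proof. Choose an integer `g` with `q ^ (r+1) r ^ r = (r+1) ^ (r+1) g ^ 5` modulo 5 (both sides prime
to 5), write `q ^ (r+1) r ^ r - (r+1) ^ (r+1) g ^ 5 = 5 N`, `κ = N / ((r+1) ^ (r+1) g ^ 5)` in the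
completion. If `5 ∣ N` then `v(κ) ≤ v(5) = v(1 - ζ) ^ 4 ≤ v(1 - ζ)`: first alternative (this happens
for `r = 2, 3` and `q = 8, 17` mod 25). Otherwise second alternative with
`valuation_one_sub_zeta`, and the left branch: if `v(r (r+1) t ^ 2 + 2 κ) < 1` then `v(t) ≤ 1`, by
`exists_int_close` `t` may be replaced by an integer `i`, and
`r (r+1) i ^ 2 (r+1) ^ (r+1) g ^ 5 + 2 N` would be divisible by 5, which is excluded by checking all
residues (`q` mod 25, `i` mod 5; for `g` take `1, 2, 3` or `4`, depending on `q` mod 5 and `r`). -/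
theorem critAt (K : Type) [Field K] [NumberField K] [IsCyclotomicExtension {5} ℚ K]
    {ζ : K} (hζ : IsPrimitiveRoot ζ 5) (q r : ℕ)
    (hq : q % 25 = 8 ∨ q % 25 = 12 ∨ q % 25 = 13 ∨ q % 25 = 17) (hr : r = 1 ∨ r = 2 ∨ r = 3)
    (v : HeightOneSpectrum (𝓞 K)) (hv : v.valuation K ((5 : ℕ) : K) < 1) :
    CritAt 5 r (1 - ζ) (q : K) 0 v := by
  have key : ∀ c : ℤ, (q : ℤ) % 25 = c → ∀ e : ℕ, ∃ M : ℤ, (q : ℤ) ^ e = c ^ e + 25 * M := by
    intro c hc e
    have h1 : (q : ℤ) ≡ c [ZMOD 25] := by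
      rw [← hc]
      exact (Int.mod_modEq _ _).symm
    obtain ⟨M, hM⟩ := (h1.pow e).symm.dvd
    exact ⟨M, by linarith⟩
  have cast : ∀ c : ℕ, q % 25 = c → (q : ℤ) % 25 = (c : ℤ) := by
    intro c hc
    omega
  rcases hr with rfl | rfl | rfl
  · rcases hq with hq | hq | hq | hq
    · obtain ⟨M, hM⟩ := key 8 (cast 8 hq) 2
      refine cf_core K hζ q 1 1 (12 + 5 * M) (by norm_num) (by norm_num) (by norm_num) ?_
        (Or.inr fun i => ?_) v hv
      · rw [hM]; push_cast; ring
      · have h := cf_check 8 24 (2 * M) (by rintro s (rfl | rfl | rfl) <;> norm_num) i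
        convert h using 2
        push_cast
        ring
    · obtain ⟨M, hM⟩ := key 12 (cast 12 hq) 2
      refine cf_core K hζ q 1 1 (28 + 5 * M) (by norm_num) (by norm_num) (by norm_num) ?_
        (Or.inr fun i => ?_) v hv
      · rw [hM]; push_cast; ring
      · have h := cf_check 8 56 (2 * M) (by rintro s (rfl | rfl | rfl) <;> norm_num) i
        convert h using 2
        push_cast
        ring
    · obtain ⟨M, hM⟩ := key 13 (cast 13 hq) 2
      refine cf_core K hζ q 1 1 (33 + 5 * M) (by norm_num) (by norm_num) (by norm_num) ?_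
        (Or.inr fun i => ?_) v hv
      · rw [hM]; push_cast; ring
      · have h := cf_check 8 66 (2 * M) (by rintro s (rfl | rfl | rfl) <;> norm_num) i
        convert h using 2
        push_cast
        ring
    · obtain ⟨M, hM⟩ := key 17 (cast 17 hq) 2
      refine cf_core K hζ q 1 1 (57 + 5 * M) (by norm_num) (by norm_num) (by norm_num) ?_
        (Or.inr fun i => ?_) v hv
      · rw [hM]; push_cast; ring
      · have h := cf_check 8 114 (2 * M) (by rintro s (rfl | rfl | rfl) <;> norm_num) i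
        convert h using 2
        push_cast
        ring
  · rcases hq with hq | hq | hq | hq
    · obtain ⟨M, hM⟩ := key 8 (cast 8 hq) 3
      refine cf_core K hζ q 2 4 (-5120 + 20 * M) (by norm_num) (by norm_num) (by norm_num) ?_
        (Or.inl ?_) v hv
      · rw [hM]; push_cast; ring
      · exact ⟨-1024 + 4 * M, by ring⟩
    · obtain ⟨M, hM⟩ := key 12 (cast 12 hq) 3
      refine cf_core K hζ q 2 1 (1377 + 20 * M) (by norm_num) (by norm_num) (by norm_num) ?_
        (Or.inr fun i => ?_) v hv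
      · rw [hM]; push_cast; ring
      · have h := cf_check 162 2754 (8 * M) (by rintro s (rfl | rfl | rfl) <;> norm_num) i
        convert h using 2
        push_cast
        ring
    · obtain ⟨M, hM⟩ := key 13 (cast 13 hq) 3
      refine cf_core K hζ q 2 4 (-3772 + 20 * M) (by norm_num) (by norm_num) (by norm_num) ?_
        (Or.inr fun i => ?_) v hv
      · rw [hM]; push_cast; ring
      · have h := cf_check 165888 (-7544) (8 * M)
          (by rintro s (rfl | rfl | rfl) <;> norm_num) i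
        convert h using 2
        push_cast
        ring
    · obtain ⟨M, hM⟩ := key 17 (cast 17 hq) 3
      refine cf_core K hζ q 2 1 (3925 + 20 * M) (by norm_num) (by norm_num) (by norm_num) ?_
        (Or.inl ?_) v hv
      · rw [hM]; push_cast; ring
      · exact ⟨785 + 4 * M, by ring⟩
  · rcases hq with hq | hq | hq | hq
    · obtain ⟨M, hM⟩ := key 8 (cast 8 hq) 4
      refine cf_core K hζ q 3 2 (20480 + 135 * M) (by norm_num) (by norm_num) (by norm_num) ?_
        (Or.inl ?_) v hv
      · rw [hM]; push_cast; ring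
      · exact ⟨4096 + 27 * M, by ring⟩
    · obtain ⟨M, hM⟩ := key 12 (cast 12 hq) 4
      refine cf_core K hζ q 3 2 (110336 + 135 * M) (by norm_num) (by norm_num) (by norm_num) ?_
        (Or.inr fun i => ?_) v hv
      · rw [hM]; push_cast; ring
      · have h := cf_check 98304 220672 (54 * M)
          (by rintro s (rfl | rfl | rfl) <;> norm_num) i
        convert h using 2
        push_cast
        ring
    · obtain ⟨M, hM⟩ := key 13 (cast 13 hq) 4
      refine cf_core K hζ q 3 2 (152591 + 135 * M) (by norm_num) (by norm_num) (by norm_num) ?_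
        (Or.inr fun i => ?_) v hv
      · rw [hM]; push_cast; ring
      · have h := cf_check 98304 305182 (54 * M)
          (by rintro s (rfl | rfl | rfl) <;> norm_num) i
        convert h using 2
        push_cast
        ring
    · obtain ⟨M, hM⟩ := key 17 (cast 17 hq) 4
      refine cf_core K hζ q 3 2 (449375 + 135 * M) (by norm_num) (by norm_num) (by norm_num) ?_
        (Or.inl ?_) v hv
      · rw [hM]; push_cast; ring
      · exact ⟨89875 + 27 * M, by ring⟩

/-- The residues modulo 25 and the exponents `r` for which the critical value satisfies the condition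
with `τ = 0`. -/
def Good (n r : ℕ) : Prop :=
  (r = 1 ∧ (n ^ 4 % 25 = 11 ∨ n ^ 4 % 25 = 16 ∨ n ^ 4 % 25 = 21)) ∨
    ((r = 2 ∨ r = 3) ∧ (n ^ 4 % 25 = 6 ∨ n ^ 4 % 25 = 11 ∨ n ^ 4 % 25 = 21))

instance (n r : ℕ) : Decidable (Good n r) := by
  unfold Good
  infer_instance

private theorem cf_table : ∀ c ∈ Finset.range 25, ∀ r ∈ Finset.range 4, Good c r →
    ∃ g ∈ Finset.Icc (1 : ℤ) 4,
      ((c : ℤ) ^ (r + 1) * (r : ℤ) ^ r - ((r : ℤ) + 1) ^ (r + 1) * g ^ 5) % 5 = 0 ∧
      (((c : ℤ) ^ (r + 1) * (r : ℤ) ^ r - ((r : ℤ) + 1) ^ (r + 1) * g ^ 5) % 25 = 0 ∨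
        ∀ s ∈ ({0, 1, 4} : Finset ℤ),
          ((r : ℤ) * ((r : ℤ) + 1) * s * (((r : ℤ) + 1) ^ (r + 1) * g ^ 5) * 5 +
            2 * ((c : ℤ) ^ (r + 1) * (r : ℤ) ^ r - ((r : ℤ) + 1) ^ (r + 1) * g ^ 5)) % 25 ≠ 0) := by
  decide +kernel

/-- The condition above 5 for all `n` and `r` of the table. -/
theorem critAt_good (K : Type) [Field K] [NumberField K] [IsCyclotomicExtension {5} ℚ K]
    {ζ : K} (hζ : IsPrimitiveRoot ζ 5) (n r : ℕ) (hgood : Good n r)
    (v : HeightOneSpectrum (𝓞 K)) (hv : v.valuation K ((5 : ℕ) : K) < 1) :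
    CritAt 5 r (1 - ζ) (n : K) 0 v := by
  have hr : r = 1 ∨ r = 2 ∨ r = 3 := by
    rcases hgood with ⟨h, _⟩ | ⟨h | h, _⟩
    · exact Or.inl h
    · exact Or.inr (Or.inl h)
    · exact Or.inr (Or.inr h)
  have hr5 : ¬ (5 : ℤ) ∣ ((r : ℤ) + 1) ∧ ¬ (5 : ℤ) ∣ (r : ℤ) := by
    rcases hr with rfl | rfl | rfl <;> constructor <;> norm_num
  obtain ⟨c, hc⟩ : ∃ c : ℕ, c = n % 25 := ⟨_, rfl⟩
  have hc25 : c ∈ Finset.range 25 := by
    rw [Finset.mem_range]
    omega
  have hgc : Good c r := by
    have h1 : c ^ 4 % 25 = n ^ 4 % 25 := by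
      rw [hc, ← Nat.pow_mod]
    unfold Good
    rw [h1]
    exact hgood
  obtain ⟨g, hg, h5, hNS⟩ := cf_table c hc25 r (Finset.mem_range.2 (by omega)) hgc
  rw [Finset.mem_Icc] at hg
  obtain ⟨A, hA⟩ : ∃ A : ℤ, A = (c : ℤ) ^ (r + 1) * (r : ℤ) ^ r -
      ((r : ℤ) + 1) ^ (r + 1) * g ^ 5 := ⟨_, rfl⟩
  rw [← hA] at h5 hNS
  obtain ⟨N₀, hN₀⟩ : ∃ N₀ : ℤ, A = 5 * N₀ := ⟨A / 5, by omega⟩
  obtain ⟨M, hM⟩ : ∃ M : ℤ, (n : ℤ) ^ (r + 1) * (r : ℤ) ^ r =
      (c : ℤ) ^ (r + 1) * (r : ℤ) ^ r + 25 * M := by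
    have h1 : (n : ℤ) ≡ (c : ℤ) [ZMOD 25] := by
      rw [hc]
      push_cast
      exact (Int.mod_modEq _ _).symm
    obtain ⟨M, hM⟩ := ((h1.pow (r + 1)).mul_right ((r : ℤ) ^ r)).symm.dvd
    exact ⟨M, by linarith⟩
  refine cf_core K hζ n r g (N₀ + 5 * M) (by omega) hr5.1 hr5.2 ?_ ?_ v hv
  · rw [hM]
    linarith
  · rcases hNS with h | h
    · left
      omega
    · right
      intro i hi
      refine cf_check ((r : ℤ) * ((r : ℤ) + 1) * (((r : ℤ) + 1) ^ (r + 1) * g ^ 5)) (2 * N₀)
        (2 * M) ?_ i ?_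
      · intro s hs hd
        refine h s (by simpa using hs) ?_
        obtain ⟨w, hw⟩ := hd
        have e : (r : ℤ) * ((r : ℤ) + 1) * s * (((r : ℤ) + 1) ^ (r + 1) * g ^ 5) * 5 + 2 * A =
            25 * w := by
          rw [hN₀]
          linear_combination 5 * hw
        rw [e]
        exact Int.mul_emod_right 25 w
      · obtain ⟨w, hw⟩ := hi
        exact ⟨w, by linear_combination hw⟩

end Pool.Agent.MP009fd8Q
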