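import Pool.Agent.Lib.MP_009fd8_agF.CondL
import Pool.Agent.Lib.MP_009fd8_agQ.AboveFive

/-!
MP_009fd8_ag, example of positive rank, leaf: the condition above 5 for `n = 4 - 10 ζ - 5 ζ ^ 3`,
`r = 1`.
-/

namespace Pool.Agent.MP009fd8Q

open NumberField IsDedekindDomain
open Pool.Agent.MP009fd8F.Crit

/-- Proof. `n ^ 2 - 4 ^ 6 = (1 - ζ) ^ 6 (-8 + 644 ζ + 1148 ζ ^ 2 + 665 ζ ^ 3)` by
`1 + ζ + ζ ^ 2 + ζ ^ 3 + ζ ^ 4 = 0`. Take `g = 4` and `κ = (n ^ 2 - 4 ^ 6) / (5 * 4 ^ 6)`: then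
`n ^ 2 = 4 (g ^ 5 (1 + 5 κ))`. With `v(1 - ζ) = exp (-1)`, `v(5) = exp (-4)` (see the proof of
`near_cong` in `NearCong.lean`: `5 = (1 - ζ) (1 - ζ ^ 2) (1 - ζ ^ 3) (1 - ζ ^ 4)`) and `v(4) = 1`:
`v(κ) ≤ exp (-6) / exp (-4) = exp (-2) ≤ v(1 - ζ)`: the first alternative. -/
theorem critAt_point (K : Type) [Field K] [NumberField K] [IsCyclotomicExtension {5} ℚ K]
    {ζ : K} (hζ : IsPrimitiveRoot ζ 5) (v : HeightOneSpectrum (𝓞 K))
    (hv : v.valuation K ((5 : ℕ) : K) < 1) :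
    CritAt 5 1 (1 - ζ) (4 - 10 * ζ - 5 * ζ ^ 3) 0 v := by
  have hvζ := valuation_one_sub_zeta K hζ v hv
  have hvp : ∀ j : ℕ, j.Coprime 5 → v.valuation K (1 - ζ ^ j) = WithZero.exp (-1 : ℤ) :=
    fun j hj => valuation_one_sub_zeta K (hζ.pow_of_coprime j hj) v hv
  have hS : 1 + ζ + ζ ^ 2 + ζ ^ 3 + ζ ^ 4 = 0 := by
    have h1 := hζ.geom_sum_eq_zero (by norm_num)
    simpa [Finset.sum_range_succ] using h1
  have h5eq : ((5 : ℕ) : K) = (1 - ζ) * (1 - ζ ^ 2) * (1 - ζ ^ 3) * (1 - ζ ^ 4) := by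
    have h1 := hζ.pow_eq_one
    push_cast
    linear_combination hS - (3 - ζ ^ 3 - ζ ^ 4 + ζ ^ 5) * h1
  have hv5 : v.valuation K ((5 : ℕ) : K) = WithZero.exp (-4 : ℤ) := by
    rw [h5eq, map_mul, map_mul, map_mul, hvζ, hvp 2 (by norm_num), hvp 3 (by norm_num),
      hvp 4 (by norm_num), ← WithZero.exp_add, ← WithZero.exp_add, ← WithZero.exp_add]
    norm_num
  have hv4 : v.valuation K (4 : K) = 1 := by
    have h1 : (4 : K) = -1 + ((5 : ℕ) : K) := by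
      push_cast
      ring
    rw [h1, Valuation.map_add_eq_of_lt_left, Valuation.map_neg, map_one]
    rw [Valuation.map_neg, map_one]
    exact hv
  have hζO : ζ ∈ (v.valuation K).integer := by
    have h1 : v.valuation K ζ ^ 5 = 1 := by rw [← map_pow, hζ.pow_eq_one, map_one]
    show v.valuation K ζ ≤ 1
    by_contra h2
    exact absurd h1 (one_lt_pow₀ (not_le.1 h2) (by norm_num)).ne'
  have hint : ∀ i : ℤ, (i : K) ∈ (v.valuation K).integer := fun i => intCast_mem _ i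
  obtain ⟨e, he⟩ : ∃ e : K, e = ((-8 : ℤ) : K) + ((644 : ℤ) : K) * ζ + ((1148 : ℤ) : K) * ζ ^ 2 +
    ((665 : ℤ) : K) * ζ ^ 3 := ⟨_, rfl⟩
  have heO : v.valuation K e ≤ 1 := by
    have h1 : e ∈ (v.valuation K).integer := by
      rw [he]
      exact add_mem (add_mem (add_mem (hint _) (mul_mem (hint _) hζO))
        (mul_mem (hint _) (pow_mem hζO 2))) (mul_mem (hint _) (pow_mem hζO 3))
    exact h1
  have hid : (4 - 10 * ζ - 5 * ζ ^ 3) ^ 2 - 4 ^ 6 = (1 - ζ) ^ 6 * e := by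
    rw [he]
    push_cast
    linear_combination (-4072 + 3300 * ζ + 3708 * ζ ^ 2 - 6573 * ζ ^ 3 + 3507 * ζ ^ 4 -
      665 * ζ ^ 5) * hS
  have h50 : ((5 : ℕ) : K) ≠ 0 := by norm_num
  have h40 : (4 : K) ≠ 0 := by norm_num
  obtain ⟨κ, hκ⟩ : ∃ κ : K, κ = ((1 - ζ) ^ 6 * e) / (((5 : ℕ) : K) * 4 ^ 6) := ⟨_, rfl⟩
  have hκ1 : (4 - 10 * ζ - 5 * ζ ^ 3) ^ 2 = 4 * (4 ^ 5 * (1 + ((5 : ℕ) : K) * κ)) := by
    have h1 : ((5 : ℕ) : K) * κ * 4 ^ 6 = (1 - ζ) ^ 6 * e := by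
      rw [hκ]
      field_simp
    linear_combination hid - h1
  have hval : ∀ x : K, Valued.v (algebraMap K (v.adicCompletion K) x) = v.valuation K x :=
    fun x => HeightOneSpectrum.valuedAdicCompletion_eq_valuation' v x
  refine ⟨4, algebraMap K (v.adicCompletion K) κ, ?_, ?_, Or.inl ?_⟩
  · have h1 : algebraMap K (v.adicCompletion K) 4 ≠ 0 := (map_ne_zero _).2 h40
    rwa [map_ofNat] at h1
  · have h1 := congrArg (algebraMap K (v.adicCompletion K)) hκ1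
    rw [map_pow] at h1
    rw [Nat.cast_one, one_pow, mul_one, show (1 + 1 : ℕ) = 2 from rfl, h1]
    simp only [map_mul, map_pow, map_add, map_one, map_ofNat, map_natCast]
    norm_num
  · rw [hval, hvζ, hκ, map_div₀, map_mul, map_mul, map_pow, map_pow, hvζ, hv5, hv4, one_pow,
      mul_one, ← WithZero.exp_nsmul]
    rw [div_le_iff₀ (WithZero.exp_pos), ← WithZero.exp_add]
    calc WithZero.exp (6 • (-1 : ℤ)) * v.valuation K e ≤ WithZero.exp (6 • (-1 : ℤ)) * 1 :=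
          mul_le_mul_right heO _
      _ ≤ WithZero.exp (-1 + -4 : ℤ) := by
          rw [mul_one, WithZero.exp_le_exp]
          norm_num

end Pool.Agent.MP009fd8Q
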