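import Mathlib

/-!
MP_009fd8_ag, example K = Q(ζ5), leaf: the unit group modulo fifth powers has two generators.
-/

namespace Pool.Agent.MP009fd8Q

open NumberField

/-- Proof. Dirichlet's unit theorem in the form `NumberField.Units.exist_unique_eq_mul_prod`
(`u = ζ' * ∏ i, (fundSystem K i) ^ (e i)`, `ζ'` torsion). The unit rank is 1: `K` is totally complex
of degree 4 (`IsCyclotomicExtension.Rat.nrComplexPlaces_eq_totient_div_two`,
`nrRealPlaces_eq_zero`), so the product has one factor. A torsion unit is `ζ ^ a` or `- ζ ^ a`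
(`IsPrimitiveRoot.exists_neg_pow_of_isOfFinOrder` for odd `5`), and `-1 = (-1) ^ 5`; an integer
exponent `e` is `(e mod 5) + 5 (e / 5)`. -/
theorem exists_generator (K : Type) [Field K] [NumberField K] [IsCyclotomicExtension {5} ℚ K]
    {ζ : K} (hζ : IsPrimitiveRoot ζ 5) (z : (𝓞 K)ˣ) (hz : ((z : 𝓞 K) : K) = ζ) :
    ∃ u₀ : (𝓞 K)ˣ, ∀ u : (𝓞 K)ˣ, ∃ (a k : ℕ) (η : (𝓞 K)ˣ), u = z ^ a * u₀ ^ k * η ^ 5 := by
  have hrank : Units.rank K = 1 := by
    dsimp only [Units.rank]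
    rw [InfinitePlace.card_eq_nrRealPlaces_add_nrComplexPlaces,
      IsCyclotomicExtension.Rat.nrRealPlaces_eq_zero (n := 5) K (by decide),
      zero_add, IsCyclotomicExtension.Rat.nrComplexPlaces_eq_totient_div_two (n := 5)]
    rfl
  refine ⟨Units.fundSystem K ⟨0, by omega⟩, fun u => ?_⟩
  obtain ⟨⟨x, e⟩, hxu, -⟩ := Units.exist_unique_eq_mul_prod _ u
  have hprod : ∏ i, (Units.fundSystem K i) ^ (e i) =
      (Units.fundSystem K ⟨0, by omega⟩) ^ (e ⟨0, by omega⟩) :=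
    Fintype.prod_eq_single _ fun i hi => absurd (Fin.ext (by
      have := i.2
      show (i : ℕ) = 0
      omega)) hi
  simp only at hxu
  rw [hprod] at hxu
  obtain ⟨n, hnpos, hn⟩ := isOfFinOrder_iff_pow_eq_one.1 <| (CommGroup.mem_torsion _).1 x.2
  have hn' : ((((x : (𝓞 K)ˣ) : 𝓞 K)) : K) ^ n = 1 := by
    rw [← map_pow, ← Units.val_pow_eq_pow_val, hn]
    simp
  obtain ⟨r, -, hru⟩ := hζ.exists_pow_or_neg_mul_pow_of_isOfFinOrder (by decide)
    (isOfFinOrder_iff_pow_eq_one.2 ⟨n, hnpos, hn'⟩)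
  have hx : ∃ s : (𝓞 K)ˣ, (x : (𝓞 K)ˣ) = z ^ r * s ^ 5 := by
    rcases hru with h | h
    · refine ⟨1, ?_⟩
      rw [one_pow, mul_one]
      ext
      rw [h, ← hz]
      simp
    · refine ⟨-1, ?_⟩
      have h5 : ((-1 : (𝓞 K)ˣ)) ^ 5 = -1 := by norm_num [Odd.neg_one_pow (by decide : Odd 5)]
      rw [h5]
      ext
      rw [h, ← hz]
      simp
  obtain ⟨s, hs⟩ := hx
  generalize Units.fundSystem K ⟨0, by omega⟩ = u₀ at hxu
  generalize e ⟨0, by omega⟩ = m at hxu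
  refine ⟨r, (m % 5).toNat, s * u₀ ^ (m / 5), ?_⟩
  have hm : u₀ ^ m = u₀ ^ (m % 5).toNat * (u₀ ^ (m / 5)) ^ 5 := by
    rw [← zpow_natCast, Int.toNat_of_nonneg (Int.emod_nonneg m (by decide)), ← zpow_natCast,
      ← zpow_mul, ← zpow_add]
    congr 1
    have := Int.emod_add_mul_ediv m 5
    push_cast
    omega
  rw [hxu, hs, hm, mul_pow]
  simp only [mul_assoc, mul_left_comm]

end Pool.Agent.MP009fd8Q
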