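import Mathlib

/-!
MP_009fd8_ag, example K = Q(ζ5), leaf: primes that are 2 or 3 modulo 5 are inert.
-/

namespace Pool.Agent.MP009fd8Q

open NumberField IsDedekindDomain

theorem Inert_orderOf (q : ℕ) (h5 : q % 5 = 2 ∨ q % 5 = 3) : orderOf (q : ZMod 5) = 4 := by
  have hq : (q : ZMod 5) = 2 ∨ (q : ZMod 5) = 3 := by
    rcases h5 with h | h
    · left
      have : ((q : ℕ) : ZMod 5) = ((2 : ℕ) : ZMod 5) := by
        rw [ZMod.natCast_eq_natCast_iff']
        omega
      simpa using this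
    · right
      have : ((q : ℕ) : ZMod 5) = ((3 : ℕ) : ZMod 5) := by
        rw [ZMod.natCast_eq_natCast_iff']
        omega
      simpa using this
  refine orderOf_eq_of_pow_and_pow_div_prime (by norm_num) ?_ ?_
  · rcases hq with h | h <;> rw [h] <;> decide
  · intro p hp hp4
    have h2 : p = 2 := by
      have h4 : p ∣ 2 ^ 2 := by simpa using hp4
      exact (Nat.prime_dvd_prime_iff_eq hp Nat.prime_two).mp (hp.dvd_of_dvd_pow h4)
    subst h2
    rcases hq with h | h <;> rw [h] <;> decide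

theorem Inert_not_fifth (w : WithZero (Multiplicative ℤ)) :
    WithZero.exp (-1 : ℤ) ≠ w ^ 5 := by
  intro h
  rcases eq_or_ne w 0 with rfl | hw
  · simp at h
  · obtain ⟨n, rfl⟩ : ∃ n : ℤ, w = WithZero.exp n := ⟨WithZero.log w, (WithZero.exp_log hw).symm⟩
    rw [← WithZero.exp_nsmul, WithZero.exp_inj] at h
    simp at h
    omega

/-- Exactly one finite place of `K = Q(ζ5)` has valuation of `q` not a fifth power.

Proof. `q` has order 4 modulo 5, so the primes above `q` have inertia degree 4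
(`IsCyclotomicExtension.Rat.inertiaDeg_eq_of_not_dvd`) and ramification index 1
(`ramificationIdx_eq_of_not_dvd`); `[K : Q] = 4`, so there is exactly one prime `v₀` above `q`
(`Ideal.ncard_primesOver_mul_ramificationIdxIn_mul_inertiaDegIn` or
`Ideal.sum_ramification_inertia`), and `q O_K = v₀`. At `v₀` the valuation of `q` is `exp (-1)`, not
the fifth power of an element of `WithZero (Multiplicative ℤ)`; at the other places `q` is a unit,
its valuation is `1 = 1 ^ 5`. -/
theorem bad_places (K : Type) [Field K] [NumberField K] [IsCyclotomicExtension {5} ℚ K] (q : ℕ)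
    (hq : q.Prime) (h5 : q % 5 = 2 ∨ q % 5 = 3) :
    ∃ v₀ : HeightOneSpectrum (𝓞 K), ∀ v : HeightOneSpectrum (𝓞 K),
      v = v₀ ↔ ¬ ∃ w, v.valuation K (q : K) = w ^ 5 := by
  have : Fact q.Prime := ⟨hq⟩
  have hgal : IsGalois ℚ K := IsCyclotomicExtension.isGalois {5} ℚ K
  have hn5 : ¬ q ∣ 5 := by
    intro h
    have := (Nat.prime_dvd_prime_iff_eq hq Nat.prime_five).mp h
    omega
  have hqz : Prime (q : ℤ) := Nat.prime_iff_prime_int.mp hq
  have hprime : (Ideal.span {(q : ℤ)}).IsPrime :=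
    (Ideal.span_singleton_prime hqz.ne_zero).mpr hqz
  have hne : Ideal.span {(q : ℤ)} ≠ ⊥ := by simpa using hq.ne_zero
  have hmax : (Ideal.span {(q : ℤ)}).IsMaximal := hprime.isMaximal hne
  have hcard := Ideal.ncard_primesOver_mul_ramificationIdxIn_mul_inertiaDegIn
    (Ideal.span {(q : ℤ)}) (𝓞 K) Gal(K/ℚ)
  rw [IsCyclotomicExtension.Rat.ramificationIdxIn_eq_of_not_dvd (m := 5) q K hn5,
    IsCyclotomicExtension.Rat.inertiaDegIn_eq_of_not_dvd (m := 5) q K hn5,
    Inert_orderOf q h5, IsGaloisGroup.card_eq_finrank Gal(K/ℚ) ℚ K,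
    IsCyclotomicExtension.Rat.finrank 5 K] at hcard
  have ht : Nat.totient 5 = 4 := by decide
  rw [ht] at hcard
  have hone : (Ideal.primesOver (Ideal.span {(q : ℤ)}) (𝓞 K)).ncard = 1 := by omega
  obtain ⟨P, hP⟩ := Set.ncard_eq_one.mp hone
  have hPm : P ∈ Ideal.primesOver (Ideal.span {(q : ℤ)}) (𝓞 K) := by rw [hP]; rfl
  have hPp : P.IsPrime := hPm.1
  have hPo : P.LiesOver (Ideal.span {(q : ℤ)}) := hPm.2
  have hqP : (q : 𝓞 K) ∈ P := by
    have h1 : (q : ℤ) ∈ P.under ℤ := by
      rw [← (Ideal.liesOver_iff P (Ideal.span {(q : ℤ)})).mp hPo]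
      exact Ideal.mem_span_singleton_self _
    rw [Ideal.under_def, Ideal.mem_comap] at h1
    simpa using h1
  have hPb : P ≠ ⊥ := by
    intro h
    rw [h, Ideal.mem_bot] at hqP
    exact hq.ne_zero (by exact_mod_cast hqP)
  have hq0 : (q : 𝓞 K) ≠ 0 := by exact_mod_cast hq.ne_zero
  have hmap : Ideal.map (algebraMap ℤ (𝓞 K)) (Ideal.span {(q : ℤ)}) = Ideal.span {(q : 𝓞 K)} := by
    rw [Ideal.map_span]; simp
  refine ⟨⟨P, hPp, hPb⟩, fun v => ⟨?_, ?_⟩⟩
  · rintro rfl ⟨w, hw⟩
    have h1 : multiplicity P (Ideal.span {(q : 𝓞 K)}) = 1 := by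
      rw [← hmap, ← Ideal.IsDedekindDomain.ramificationIdx_eq_multiplicity (Ideal.span {(q : ℤ)}) P
        (by rw [hmap]; simpa using hq0)]
      exact IsCyclotomicExtension.Rat.ramificationIdx_eq_of_not_dvd (m := 5) q K P hn5
    have h2 : (q : K) = algebraMap (𝓞 K) K (q : 𝓞 K) := by simp
    rw [h2, HeightOneSpectrum.valuation_of_algebraMap,
      HeightOneSpectrum.intValuation_eq_exp_neg_multiplicity _ hq0] at hw
    simp only [h1] at hw
    exact Inert_not_fifth w (by simpa using hw)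
  · intro hv
    by_contra hne'
    refine hv ⟨1, ?_⟩
    have hnm : (q : 𝓞 K) ∉ v.asIdeal := by
      intro hmem
      apply hne'
      have hvP := v.isPrime
      have hvo : v.asIdeal.LiesOver (Ideal.span {(q : ℤ)}) := by
        rw [Ideal.liesOver_iff]
        refine hmax.eq_of_le ?_ ?_
        · exact (Ideal.IsPrime.under ℤ v.asIdeal).ne_top
        · rw [Ideal.span_singleton_le_iff_mem, Ideal.under_def, Ideal.mem_comap]
          simpa using hmem
      have : v.asIdeal ∈ Ideal.primesOver (Ideal.span {(q : ℤ)}) (𝓞 K) := ⟨hvP, hvo⟩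
      rw [hP] at this
      exact HeightOneSpectrum.ext this
    have h2 : (q : K) = algebraMap (𝓞 K) K (q : 𝓞 K) := by simp
    rw [h2, one_pow]
    exact HeightOneSpectrum.valuation_eq_one_iff_notMem v |>.mpr hnm

end Pool.Agent.MP009fd8Q
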