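import Mathlib

/-!
MP_009fd8_ag, example K = Q(ζ5): the levels of the units `ζ` and `ζ ^ 2 + ζ ^ 3`.
-/

namespace Pool.Agent.MP009fd8Q

section alg

variable {R : Type*} [CommRing R]

theorem exp_one (π : R) (i : ℕ) :
    ∃ A : R, (1 - π) ^ i = 1 - i * π + (i.choose 2 : ℕ) * π ^ 2 + π ^ 3 * A := by
  induction i with
  | zero => exact ⟨0, by simp⟩
  | succ i ih =>
    obtain ⟨A, hA⟩ := ih
    refine ⟨A - (i.choose 2 : ℕ) - π * A, ?_⟩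
    have h1 : (i + 1).choose 2 = i + i.choose 2 := by
      rw [Nat.choose_succ_succ' i 1, Nat.choose_one_right]
    rw [pow_succ, hA, h1]
    push_cast
    ring

theorem exp_two (π E : R) (j : ℕ) :
    ∃ B : R, (2 + 4 * π ^ 2 + π ^ 3 * E) ^ j = 2 ^ j + 2 ^ j * (2 * j) * π ^ 2 + π ^ 3 * B := by
  induction j with
  | zero => exact ⟨0, by simp⟩
  | succ j ih =>
    obtain ⟨B, hB⟩ := ih
    refine ⟨2 ^ j * E + 2 ^ j * (2 * j) * 4 * π + 2 ^ j * (2 * j) * π ^ 2 * E +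
      B * (2 + 4 * π ^ 2 + π ^ 3 * E), ?_⟩
    rw [pow_succ, hB]
    push_cast
    ring

/-- If `ζ ^ i ε ^ j` is congruent to an integer modulo `π ^ 3`, then `5` divides `i` and `j`. -/
theorem level [IsDomain R] (π : R) (hπ : π ≠ 0) (h5 : π ^ 3 ∣ 5)
    (hint : ∀ m : ℤ, π ∣ (m : R) → (5 : ℤ) ∣ m) (i j : ℕ) (m : ℤ)
    (h : π ^ 3 ∣ (1 - π) ^ i * ((1 - π) ^ 2 + (1 - π) ^ 3) ^ j - m) : 5 ∣ i ∧ 5 ∣ j := by
  obtain ⟨w, hw⟩ := h5
  have he : (1 - π) ^ 2 + (1 - π) ^ 3 = 2 + 4 * π ^ 2 + π ^ 3 * (-(w * π) - 1) := by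
    have : (1 - π) ^ 2 + (1 - π) ^ 3 = 2 - 5 * π + 4 * π ^ 2 - π ^ 3 := by ring
    rw [this, hw]
    ring
  obtain ⟨A, hA⟩ := exp_one π i
  obtain ⟨B, hB⟩ := exp_two π (-(w * π) - 1) j
  rw [he, hA, hB] at h
  set C : ℕ := i.choose 2 with hC
  -- the product
  obtain ⟨D, hD⟩ : ∃ D : R, (1 - i * π + (C : R) * π ^ 2 + π ^ 3 * A) *
      (2 ^ j + 2 ^ j * (2 * j) * π ^ 2 + π ^ 3 * B) - m =
      ((2 ^ j - m : ℤ) : R) - 2 ^ j * i * π + 2 ^ j * (C + 2 * j) * π ^ 2 + π ^ 3 * D := by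
    refine ⟨(1 - i * π + (C : R) * π ^ 2 + π ^ 3 * A) * B +
      A * (2 ^ j + 2 ^ j * (2 * j) * π ^ 2) - i * (2 ^ j * (2 * j)) +
      (C : R) * (2 ^ j * (2 * j)) * π, ?_⟩
    push_cast
    ring
  rw [hD] at h
  have h' : π ^ 3 ∣ ((2 ^ j - m : ℤ) : R) - 2 ^ j * i * π + 2 ^ j * (C + 2 * j) * π ^ 2 :=
    (dvd_add_left (dvd_mul_right _ _)).1 h
  have hpp : π ∣ π ^ 3 := dvd_pow_self _ (by norm_num)
  have s1 : π ∣ ((2 ^ j - m : ℤ) : R) := by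
    have h1 := hpp.trans h'
    have h2 : π ∣ 2 ^ j * i * π := dvd_mul_left _ _
    have h3 : π ∣ 2 ^ j * (C + 2 * j) * π ^ 2 := (dvd_pow_self _ (by norm_num)).mul_left _
    have h4 := dvd_add (dvd_sub h1 h3) h2
    have e : ((2 ^ j - m : ℤ) : R) - 2 ^ j * i * π + 2 ^ j * (C + 2 * j) * π ^ 2 -
      2 ^ j * (C + 2 * j) * π ^ 2 + 2 ^ j * i * π = ((2 ^ j - m : ℤ) : R) := by ring
    rwa [e] at h4
  obtain ⟨s, hs⟩ := hint _ s1
  have hs' : ((2 ^ j - m : ℤ) : R) = π ^ 3 * (w * s) := by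
    rw [hs]
    push_cast
    rw [hw]
    ring
  have h2π : π ^ 3 ∣ π * (2 ^ j * (-(i : R) + (C + 2 * j) * π)) := by
    have h4 := dvd_sub h' (dvd_mul_right (π ^ 3) (w * (s : R)))
    rw [hs'] at h4
    have e : π ^ 3 * (w * (s : R)) - 2 ^ j * i * π + 2 ^ j * (C + 2 * j) * π ^ 2 -
      π ^ 3 * (w * (s : R)) = π * (2 ^ j * (-(i : R) + (C + 2 * j) * π)) := by ring
    rwa [e] at h4
  have s2 : π ^ 2 ∣ 2 ^ j * (-(i : R) + (C + 2 * j) * π) := by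
    rw [show π ^ 3 = π * π ^ 2 by ring] at h2π
    exact (mul_dvd_mul_iff_left hπ).1 h2π
  have h2unit : ∀ t : ℤ, (5 : ℤ) ∣ 2 ^ j * t → (5 : ℤ) ∣ t := by
    intro t ht
    have hp5 : Prime (5 : ℤ) := by norm_num
    rcases hp5.dvd_or_dvd ht with h | h
    · have := hp5.dvd_of_dvd_pow h
      omega
    · exact h
  have s3 : π ∣ ((2 ^ j * (i : ℤ) : ℤ) : R) := by
    have h1 : π ∣ 2 ^ j * (-(i : R) + (C + 2 * j) * π) :=
      (dvd_pow_self _ (by norm_num)).trans s2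
    have h2 : π ∣ 2 ^ j * (C + 2 * j) * π := dvd_mul_left _ _
    have h3 := dvd_sub h2 h1
    have e : 2 ^ j * (C + 2 * j) * π - 2 ^ j * (-(i : R) + (C + 2 * j) * π) =
        ((2 ^ j * (i : ℤ) : ℤ) : R) := by
      push_cast
      ring
    rwa [e] at h3
  have hi : (5 : ℤ) ∣ i := h2unit _ (hint _ s3)
  obtain ⟨i', hi'⟩ := hi
  have hiR : (i : R) = π ^ 3 * (w * i') := by
    have : ((i : ℤ) : R) = ((5 * i' : ℤ) : R) := by rw [hi']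
    push_cast at this
    rw [this, hw]
    ring
  have s4 : π ^ 2 ∣ π * ((2 ^ j * (C + 2 * j : ℤ) : ℤ) : R) := by
    have h1 : π ^ 2 ∣ 2 ^ j * (π ^ 3 * (w * (i' : R))) := by
      refine Dvd.dvd.mul_left ?_ _
      exact (pow_dvd_pow π (by norm_num : 2 ≤ 3)).trans (dvd_mul_right _ _)
    have h2 := dvd_add s2 h1
    rw [hiR] at h2
    have e : 2 ^ j * (-(π ^ 3 * (w * (i' : R))) + (C + 2 * j) * π) +
        2 ^ j * (π ^ 3 * (w * (i' : R))) = π * ((2 ^ j * (C + 2 * j : ℤ) : ℤ) : R) := by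
      push_cast
      ring
    rwa [e] at h2
  have s5 : π ∣ ((2 ^ j * (C + 2 * j : ℤ) : ℤ) : R) := by
    rw [show π ^ 2 = π * π by ring] at s4
    exact (mul_dvd_mul_iff_left hπ).1 s4
  have hCj : (5 : ℤ) ∣ (C : ℤ) + 2 * j := h2unit _ (hint _ s5)
  have h2C : 2 * C = i * (i - 1) := by
    rw [hC, Nat.choose_two_right]
    exact Nat.mul_div_cancel' (Nat.even_mul_pred_self i).two_dvd
  have h5i : 5 ∣ i := by omega
  have h5C : 5 ∣ 2 * C := by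
    rw [h2C]
    exact h5i.mul_right _
  refine ⟨h5i, ?_⟩
  omega

end alg

end Pool.Agent.MP009fd8Q
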