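import Pool.Agent.Lib.MP_009fd8_agF.CondL
import Pool.Agent.Lib.MP_009fd8_agQ.AboveFive

/-!
MP_009fd8_ag, example K = Q(ζ5), leaf: an integer near a fifth power is congruent to a rational
integer modulo `(1 - ζ) ^ 3`.
-/

namespace Pool.Agent.MP009fd8Q

open NumberField IsDedekindDomain
open Pool.Agent.MP009fd8F.Crit

private theorem nc_lt_one {x : WithZero (Multiplicative ℤ)} (h : x < 1) :
    x ≤ WithZero.exp (-1 : ℤ) := by
  rcases eq_or_ne x 0 with rfl | hx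
  · exact zero_le
  · rw [← WithZero.exp_log hx, ← WithZero.exp_zero, WithZero.exp_lt_exp] at h
    rw [← WithZero.exp_log hx, WithZero.exp_le_exp]
    omega

private theorem nc_sq {x : WithZero (Multiplicative ℤ)} (h : x ^ 2 ≤ WithZero.exp (-5 : ℤ)) :
    x ≤ WithZero.exp (-3 : ℤ) := by
  rcases eq_or_ne x 0 with rfl | hx
  · exact zero_le
  · rw [← WithZero.exp_log hx, ← WithZero.exp_nsmul, WithZero.exp_le_exp, nsmul_eq_mul] at h
    rw [← WithZero.exp_log hx, WithZero.exp_le_exp]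
    push_cast at h
    omega

private theorem nc_five {x : WithZero (Multiplicative ℤ)} (h : x ^ 5 = 1) : x = 1 := by
  rcases eq_or_ne x 0 with rfl | hx
  · rw [zero_pow (by norm_num)] at h
    exact absurd h zero_ne_one
  · rw [← WithZero.exp_log hx, ← WithZero.exp_nsmul, ← WithZero.exp_zero, WithZero.exp_inj,
      nsmul_eq_mul] at h
    rw [← WithZero.exp_log hx, ← WithZero.exp_zero, WithZero.exp_inj]
    push_cast at h
    omega

/-- Proof. Let `v` be the place above 5 (`v.asIdeal = span {1 - ζ}`, which exists: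
`IsCyclotomicExtension.Rat`, `hζ.zeta_sub_one_prime'`). `Near` with `τ = 0` gives `u = c ^ 5 (1 + z)` in
the completion, `v(z) ^ 2 ≤ exp (-5)`, so `v(z) ≤ exp (-3)`; `v(c) = 1` as `u` is a unit. By
`exists_int_close` there is an integer `i` with `v(c - i) ≤ exp (-1)`; with `c = i + y`:
`c ^ 5 - i ^ 5 = 5 i ^ 4 y + 10 i ^ 3 y ^ 2 + 10 i ^ 2 y ^ 3 + 5 i y ^ 4 + y ^ 5` has value at most
`exp (-5)` (`v(5) = exp (-4)`). So `v(u - i ^ 5) ≤ exp (-3)`, and
`HeightOneSpectrum.intValuation_le_pow_iff_dvd` (or `_mem`) gives the divisibility. -/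
theorem near_cong (K : Type) [Field K] [NumberField K] [IsCyclotomicExtension {5} ℚ K]
    {ζ : K} (hζ : IsPrimitiveRoot ζ 5) (z : (𝓞 K)ˣ) (hz : ((z : 𝓞 K) : K) = ζ) (u : (𝓞 K)ˣ)
    (h : ∀ v : HeightOneSpectrum (𝓞 K), v.valuation K ((5 : ℕ) : K) < 1 →
      Near 5 (1 - ζ) 0 v ((u : 𝓞 K) : K)) :
    ∃ m : ℤ, (1 - (z : 𝓞 K)) ^ 3 ∣ (u : 𝓞 K) - m := by
  have hfact : Fact (Nat.Prime 5) := ⟨Nat.prime_five⟩
  have hprime := hζ.zeta_sub_one_prime'
  obtain ⟨v, hvI⟩ : ∃ v : HeightOneSpectrum (𝓞 K),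
      v.asIdeal = Ideal.span {hζ.toInteger - 1} :=
    ⟨⟨Ideal.span {hζ.toInteger - 1}, (Ideal.span_singleton_prime hprime.ne_zero).2 hprime, by
      rw [Ne, Ideal.span_singleton_eq_bot]
      exact hprime.ne_zero⟩, rfl⟩
  have hv5 : v.valuation K ((5 : ℕ) : K) < 1 := by
    have h1 : v.valuation K (algebraMap (𝓞 K) K ((5 : ℕ) : 𝓞 K)) < 1 :=
      (v.valuation_lt_one_iff_mem (K := K) ((5 : ℕ) : 𝓞 K)).2 (by
        rw [hvI]
        exact Ideal.mem_span_singleton.2 hζ.toInteger_sub_one_dvd_prime')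
    rwa [map_natCast] at h1
  have hvζ := valuation_one_sub_zeta K hζ v hv5
  have hvp : ∀ j : ℕ, j.Coprime 5 → v.valuation K (1 - ζ ^ j) = WithZero.exp (-1 : ℤ) :=
    fun j hj => valuation_one_sub_zeta K (hζ.pow_of_coprime j hj) v hv5
  have hS : 1 + ζ + ζ ^ 2 + ζ ^ 3 + ζ ^ 4 = 0 := by
    have h1 := hζ.geom_sum_eq_zero (by norm_num)
    simpa [Finset.sum_range_succ] using h1
  have h5eq : ((5 : ℕ) : K) = (1 - ζ) * (1 - ζ ^ 2) * (1 - ζ ^ 3) * (1 - ζ ^ 4) := by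
    have h1 := hζ.pow_eq_one
    push_cast
    linear_combination hS - (3 - ζ ^ 3 - ζ ^ 4 + ζ ^ 5) * h1
  have hv5' : v.valuation K ((5 : ℕ) : K) = WithZero.exp (-4 : ℤ) := by
    rw [h5eq, map_mul, map_mul, map_mul, hvζ, hvp 2 (by norm_num), hvp 3 (by norm_num),
      hvp 4 (by norm_num), ← WithZero.exp_add, ← WithZero.exp_add, ← WithZero.exp_add]
    norm_num
  have hval : ∀ x : K, Valued.v (algebraMap K (v.adicCompletion K) x) = v.valuation K x :=
    fun x => HeightOneSpectrum.valuedAdicCompletion_eq_valuation' v x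
  obtain ⟨c, w, m, hc, hw, hu⟩ := h v hv5
  have hw5 : Valued.v w ^ 2 ≤ WithZero.exp (-5 : ℤ) := by
    have e : algebraMap K (v.adicCompletion K)
        ((m : K) * ((0 : 𝓞 K) : K) * (1 - ζ) ^ ((5 - 1) / 2)) = 0 := by simp
    rw [e, sub_zero, hvζ, ← WithZero.exp_nsmul] at hw
    exact hw
  have hw3 := nc_sq hw5
  have hvu : Valued.v (algebraMap K (v.adicCompletion K) ((u : 𝓞 K) : K)) = 1 := by
    rw [hval]
    have h1 : v.valuation K ((u : 𝓞 K) : K) ≤ 1 := v.valuation_le_one _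
    have h2 : v.valuation K (((u⁻¹ : (𝓞 K)ˣ) : 𝓞 K) : K) ≤ 1 := v.valuation_le_one _
    have h3 : v.valuation K ((u : 𝓞 K) : K) * v.valuation K (((u⁻¹ : (𝓞 K)ˣ) : 𝓞 K) : K) = 1 := by
      rw [← map_mul, ← map_mul, Units.mul_inv, map_one, map_one]
    refine le_antisymm h1 ?_
    calc (1 : WithZero (Multiplicative ℤ)) =
        v.valuation K ((u : 𝓞 K) : K) * v.valuation K (((u⁻¹ : (𝓞 K)ˣ) : 𝓞 K) : K) := h3.symm
      _ ≤ v.valuation K ((u : 𝓞 K) : K) * 1 := mul_le_mul_right h2 _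
      _ = v.valuation K ((u : 𝓞 K) : K) := mul_one _
  have hexp : WithZero.exp (-3 : ℤ) < (1 : WithZero (Multiplicative ℤ)) := by
    rw [← WithZero.exp_zero, WithZero.exp_lt_exp]
    norm_num
  have h1w : Valued.v (1 + w) = 1 := Valuation.map_one_add_of_lt _ (hw3.trans_lt hexp)
  have hc1 : Valued.v c = 1 := by
    rw [hu, map_mul, map_pow, h1w, mul_one] at hvu
    exact nc_five hvu
  obtain ⟨i, hi⟩ := exists_int_close K hζ v hv5 c hc1.le
  obtain ⟨y, hy⟩ : ∃ y, y = c - (i : v.adicCompletion K) := ⟨_, rfl⟩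
  rw [← hy] at hi
  have hy1 := nc_lt_one hi
  have hyO : y ∈ (Valued.v : Valuation (v.adicCompletion K) _).integer := hi.le
  have hiO : (i : v.adicCompletion K) ∈ (Valued.v : Valuation (v.adicCompletion K) _).integer :=
    intCast_mem _ i
  obtain ⟨Q, hQ⟩ : ∃ Q, Q = (i : v.adicCompletion K) ^ 4 + (i : v.adicCompletion K) ^ 3 * (y + y) +
      (i : v.adicCompletion K) ^ 2 * (y ^ 2 + y ^ 2) + (i : v.adicCompletion K) * y ^ 3 := ⟨_, rfl⟩
  have hQO : Valued.v Q ≤ 1 := by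
    have h1 : Q ∈ (Valued.v : Valuation (v.adicCompletion K) _).integer := by
      rw [hQ]
      exact add_mem (add_mem (add_mem (pow_mem hiO 4) (mul_mem (pow_mem hiO 3) (add_mem hyO hyO)))
        (mul_mem (pow_mem hiO 2) (add_mem (pow_mem hyO 2) (pow_mem hyO 2))))
        (mul_mem hiO (pow_mem hyO 3))
    exact h1
  have hdiff : c ^ 5 - (i : v.adicCompletion K) ^ 5 =
      y ^ 5 + algebraMap K (v.adicCompletion K) ((5 : ℕ) : K) * (y * Q) := by
    rw [map_natCast, hQ]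
    have e : c = y + (i : v.adicCompletion K) := by rw [hy]; ring
    rw [e]
    push_cast
    ring
  have hd1 : Valued.v (c ^ 5 - (i : v.adicCompletion K) ^ 5) ≤ WithZero.exp (-3 : ℤ) := by
    rw [hdiff]
    refine (Valuation.map_add _ _ _).trans (max_le ?_ ?_)
    · rw [map_pow]
      refine (pow_le_pow_left' hy1 5).trans ?_
      rw [← WithZero.exp_nsmul, WithZero.exp_le_exp]
      norm_num
    · rw [map_mul, map_mul, hval, hv5']
      calc WithZero.exp (-4 : ℤ) * (Valued.v y * Valued.v Q)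
          ≤ WithZero.exp (-4 : ℤ) * (WithZero.exp (-1 : ℤ) * 1) :=
            mul_le_mul_right (mul_le_mul' hy1 hQO) _
        _ ≤ WithZero.exp (-3 : ℤ) := by
            rw [mul_one, ← WithZero.exp_add, WithZero.exp_le_exp]
            norm_num
  have hfin : v.valuation K ((((u : 𝓞 K) - ((i ^ 5 : ℤ) : 𝓞 K) : 𝓞 K)) : K) ≤
      WithZero.exp (-3 : ℤ) := by
    rw [← hval]
    have e : algebraMap K (v.adicCompletion K) ((((u : 𝓞 K) - ((i ^ 5 : ℤ) : 𝓞 K) : 𝓞 K)) : K) =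
        (c ^ 5 - (i : v.adicCompletion K) ^ 5) + c ^ 5 * w := by
      have e0 : ((((u : 𝓞 K) - ((i ^ 5 : ℤ) : 𝓞 K) : 𝓞 K)) : K) =
          ((u : 𝓞 K) : K) - ((i ^ 5 : ℤ) : K) := by
        rw [← map_intCast (algebraMap (𝓞 K) K) (i ^ 5)]
        exact map_sub (algebraMap (𝓞 K) K) _ _
      rw [e0, map_sub, map_intCast, hu]
      push_cast
      ring
    rw [e]
    refine (Valuation.map_add _ _ _).trans (max_le hd1 ?_)
    rw [map_mul, map_pow, hc1, one_pow, one_mul]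
    exact hw3
  refine ⟨i ^ 5, ?_⟩
  have h3 : ((u : 𝓞 K) - ((i ^ 5 : ℤ) : 𝓞 K)) ∈ v.asIdeal ^ 3 := by
    rw [← v.intValuation_le_pow_iff_mem, ← v.valuation_of_algebraMap (K := K)]
    exact hfin
  rw [hvI, Ideal.span_singleton_pow, Ideal.mem_span_singleton] at h3
  have hz' : (z : 𝓞 K) = hζ.toInteger := by
    apply RingOfIntegers.ext
    rw [hz]
    rfl
  have e : (1 - (z : 𝓞 K)) ^ 3 = -((hζ.toInteger - 1) ^ 3) := by
    rw [hz']
    ring
  rw [e, neg_dvd]
  exact h3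

end Pool.Agent.MP009fd8Q
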