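import Pool.Agent.Lib.MP_009fd8_agQ.UnitsB

/-!
MP_009fd8_ag, example K = Q(ζ5), leaf: elements of prime norm generate prime ideals.
-/

namespace Pool.Agent.MP009fd8Q

open NumberField IsDedekindDomain

/-- Proof. `x` is nonzero as it divides `N ≠ 0`. `span {x} ≠ ⊤`: otherwise `x` is a unit; but there is
a ring homomorphism `φ : 𝓞 K → ZMod N` with `φ z = t`
(`hζ.integralPowerBasis.lift`, `minpoly` is `cyclotomic 5 ℤ`, whose value at `t` is
`1 + t + t ^ 2 + t ^ 3 + t ^ 4 = 0` in `ZMod N`) and `φ x = 0`, a contradiction. Every element of `𝓞 K`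
is congruent to an integer modulo `x` (polynomials in `z`, `Polynomial.sub_dvd_eval_sub`, as in
`exists_int_mod` of `UnitsB.lean`), and `N` is in `span {x}`. So the map `ℤ → 𝓞 K ⧸ span {x}` is
surjective with `N` in the kernel; the kernel is a proper ideal containing the maximal ideal
`span {N}`, so it is `span {N}` and the quotient is the field `ZMod N`. Or directly: if `a b` is in
`span {x}` with `a ≡ i`, `b ≡ j` modulo `x` then `i j` is in `span {x}`, so `φ (i j) = 0`,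
`N ∣ i j`, `N ∣ i` or `N ∣ j`, and `a` or `b` is in `span {x}`. -/
theorem prime_span {K : Type} [Field K] [NumberField K] [IsCyclotomicExtension {5} ℚ K] {ζ : K}
    (hζ : IsPrimitiveRoot ζ 5) (z : (𝓞 K)ˣ) (hz : ((z : 𝓞 K) : K) = ζ) {N : ℕ} (hN : N.Prime)
    (t a b c d : ℤ) (ht : (N : ℤ) ∣ 1 + t + t ^ 2 + t ^ 3 + t ^ 4)
    (hN' : (N : ℤ) ∣ a + b * t + c * t ^ 2 + d * t ^ 3) (x : 𝓞 K)
    (hx : x = a + b * (z : 𝓞 K) + c * (z : 𝓞 K) ^ 2 + d * (z : 𝓞 K) ^ 3)
    (hxN : x ∣ (N : 𝓞 K)) (hxt : x ∣ (z : 𝓞 K) - t) : (Ideal.span {x}).IsPrime ∧ x ≠ 0 := by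
  have hfact5 : Fact (Nat.Prime 5) := ⟨Nat.prime_five⟩
  have hfact : Fact N.Prime := ⟨hN⟩
  have hNpos : (N : 𝓞 K) ≠ 0 := by exact_mod_cast hN.ne_zero
  have hmin : minpoly ℤ hζ.integralPowerBasis.gen = Polynomial.cyclotomic 5 ℤ := by
    rw [hζ.integralPowerBasis_gen, ← RingOfIntegers.minpoly_coe]
    exact (Polynomial.cyclotomic_eq_minpoly hζ (by norm_num)).symm
  have ht0 : (1 : ZMod N) + t + t ^ 2 + t ^ 3 + t ^ 4 = 0 := by
    have h1 := (ZMod.intCast_zmod_eq_zero_iff_dvd (1 + t + t ^ 2 + t ^ 3 + t ^ 4) N).2 ht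
    push_cast at h1
    exact h1
  have hroot : Polynomial.aeval ((t : ℤ) : ZMod N) (minpoly ℤ hζ.integralPowerBasis.gen) = 0 := by
    rw [hmin, Polynomial.cyclotomic_prime]
    simp only [Finset.sum_range_succ, Finset.sum_range_zero, pow_zero, pow_one, zero_add,
      map_add, map_one, map_pow, Polynomial.aeval_X]
    exact ht0
  let φ : 𝓞 K →ₐ[ℤ] ZMod N := hζ.integralPowerBasis.lift ((t : ℤ) : ZMod N) hroot
  have hφz : φ (z : 𝓞 K) = ((t : ℤ) : ZMod N) := by
    rw [toInteger_eq hζ z hz, ← hζ.integralPowerBasis_gen]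
    exact hζ.integralPowerBasis.lift_gen _ hroot
  have hφx : φ x = 0 := by
    have h1 := (ZMod.intCast_zmod_eq_zero_iff_dvd (a + b * t + c * t ^ 2 + d * t ^ 3) N).2 hN'
    push_cast at h1
    rw [hx, map_add, map_add, map_add, map_mul, map_mul, map_mul, map_pow, map_pow, hφz]
    simpa using h1
  have hmod : ∀ y : 𝓞 K, ∃ m : ℤ, x ∣ y - m := by
    intro y
    obtain ⟨f, hf⟩ := hζ.integralPowerBasis.exists_eq_aeval' y
    rw [hζ.integralPowerBasis_gen] at hf
    refine ⟨f.eval t, ?_⟩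
    have h := Polynomial.sub_dvd_eval_sub (z : 𝓞 K) ((t : ℤ) : 𝓞 K)
      (f.map (algebraMap ℤ (𝓞 K)))
    have h1 : (f.map (algebraMap ℤ (𝓞 K))).eval ((t : ℤ) : 𝓞 K) = ((f.eval t : ℤ) : 𝓞 K) := by
      rw [Polynomial.eval_map]
      exact Polynomial.eval₂_at_intCast (algebraMap ℤ (𝓞 K)) t
    have h2 : (f.map (algebraMap ℤ (𝓞 K))).eval (z : 𝓞 K) = y := by
      rw [hf, toInteger_eq hζ z hz, Polynomial.eval_map, Polynomial.aeval_def]
    rw [h1, h2] at h
    exact hxt.trans h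
  have hiff : ∀ y : 𝓞 K, x ∣ y ↔ φ y = 0 := by
    intro y
    constructor
    · rintro ⟨w, rfl⟩
      rw [map_mul, hφx, zero_mul]
    · intro hy
      obtain ⟨m, w, hw⟩ := hmod y
      have h1 : y = x * w + (m : 𝓞 K) := by linear_combination hw
      rw [h1, map_add, map_mul, hφx, zero_mul, zero_add, map_intCast] at hy
      have h2 : (N : ℤ) ∣ m := (ZMod.intCast_zmod_eq_zero_iff_dvd m N).1 hy
      obtain ⟨q, rfl⟩ := h2
      rw [h1]
      refine dvd_add (dvd_mul_right _ _) ?_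
      push_cast
      exact hxN.mul_right _
  have hker : Ideal.span {x} = RingHom.ker φ.toRingHom := by
    ext y
    rw [Ideal.mem_span_singleton, hiff, RingHom.mem_ker]
    rfl
  refine ⟨?_, ?_⟩
  · rw [hker]
    exact RingHom.ker_isPrime _
  · rintro h0
    rw [h0] at hxN
    exact hNpos (zero_dvd_iff.1 hxN)

end Pool.Agent.MP009fd8Q
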