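import Pool.Agent.Lib.MP_009fd8_agQ.Level
import Pool.Agent.Lib.MP_009fd8_agQ.NearCong
import Pool.Agent.Lib.MP_009fd8_agQ.Dirichlet

/-!
MP_009fd8_ag, example K = Q(ζ5): a unit that is near a fifth power above 5 is a fifth power.
-/

namespace Pool.Agent.MP009fd8Q

open NumberField IsDedekindDomain
open Pool.Agent.MP009fd8F.Crit

section ring

variable {R : Type} [CommRing R]

theorem cube_dvd_five (z : R) (h : 1 + z + z ^ 2 + z ^ 3 + z ^ 4 = 0) : (1 - z) ^ 3 ∣ 5 := by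
  refine ⟨(1 - z) * ((1 + z) * (1 + z + z ^ 2) * (1 + z + z ^ 2 + z ^ 3)), ?_⟩
  have h5 : z ^ 5 = 1 := by linear_combination (z - 1) * h
  have e : (1 - z) ^ 3 * ((1 - z) * ((1 + z) * (1 + z + z ^ 2) * (1 + z + z ^ 2 + z ^ 3))) =
      (1 - z) * (1 - z ^ 2) * (1 - z ^ 3) * (1 - z ^ 4) := by ring
  rw [e]
  linear_combination h - (3 - z ^ 3 - z ^ 4 + z ^ 5) * h5

/-- The unit `z ^ 2 + z ^ 3`. -/
theorem eps_mul (z : R) (h : 1 + z + z ^ 2 + z ^ 3 + z ^ 4 = 0) :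
    (z ^ 2 + z ^ 3) * (-(z + z ^ 4)) = 1 := by
  have h5 : z ^ 5 = 1 := by linear_combination (z - 1) * h
  linear_combination -h - (z + z ^ 2) * h5

theorem pow_five_cong (π x : R) (h5 : π ^ 3 ∣ 5) (m : ℤ) (h : π ∣ x - m) :
    π ^ 3 ∣ x ^ 5 - (m ^ 5 : ℤ) := by
  obtain ⟨y, hy⟩ := h
  obtain ⟨w, hw⟩ := h5
  have hx : x = m + π * y := by rw [← hy]; ring
  refine ⟨w * (m ^ 4 * (π * y) + 2 * m ^ 3 * (π * y) ^ 2 + 2 * m ^ 2 * (π * y) ^ 3 +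
    m * (π * y) ^ 4) + π ^ 2 * y ^ 5, ?_⟩
  have e : x ^ 5 - (m ^ 5 : ℤ) = 5 * (m ^ 4 * (π * y) + 2 * m ^ 3 * (π * y) ^ 2 +
    2 * m ^ 2 * (π * y) ^ 3 + m * (π * y) ^ 4) + π ^ 5 * y ^ 5 := by
    rw [hx]
    push_cast
    ring
  rw [e, hw]
  ring

end ring

section field

variable {K : Type} [Field K] [NumberField K] [IsCyclotomicExtension {5} ℚ K] {ζ : K}

theorem toInteger_eq (hζ : IsPrimitiveRoot ζ 5) (z : (𝓞 K)ˣ) (hz : ((z : 𝓞 K) : K) = ζ) :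
    (z : 𝓞 K) = hζ.toInteger := by
  apply RingOfIntegers.ext
  rw [hz]
  rfl

theorem cyc_eq (hζ : IsPrimitiveRoot ζ 5) (z : (𝓞 K)ˣ) (hz : ((z : 𝓞 K) : K) = ζ) :
    1 + (z : 𝓞 K) + (z : 𝓞 K) ^ 2 + (z : 𝓞 K) ^ 3 + (z : 𝓞 K) ^ 4 = 0 := by
  rw [toInteger_eq hζ z hz]
  have h1 := hζ.toInteger_isPrimitiveRoot.geom_sum_eq_zero (by norm_num)
  simpa [Finset.sum_range_succ] using h1

theorem exists_int_mod (hζ : IsPrimitiveRoot ζ 5) (z : (𝓞 K)ˣ) (hz : ((z : 𝓞 K) : K) = ζ)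
    (x : 𝓞 K) : ∃ m : ℤ, 1 - (z : 𝓞 K) ∣ x - m := by
  have hfact : Fact (Nat.Prime 5) := ⟨Nat.prime_five⟩
  obtain ⟨f, hf⟩ := hζ.integralPowerBasis.exists_eq_aeval' x
  rw [hζ.integralPowerBasis_gen] at hf
  refine ⟨f.eval 1, ?_⟩
  have h := Polynomial.sub_dvd_eval_sub 1 (z : 𝓞 K) (f.map (algebraMap ℤ (𝓞 K)))
  have h1 : (f.map (algebraMap ℤ (𝓞 K))).eval 1 = ((f.eval 1 : ℤ) : 𝓞 K) := by
    simp [Polynomial.eval_map, Polynomial.eval₂_at_one]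
  have h2 : (f.map (algebraMap ℤ (𝓞 K))).eval (z : 𝓞 K) = x := by
    rw [hf, toInteger_eq hζ z hz, Polynomial.eval_map, Polynomial.aeval_def]
  rw [h1, h2, ← neg_sub x, dvd_neg] at h
  exact h

theorem int_of_dvd (hζ : IsPrimitiveRoot ζ 5) (z : (𝓞 K)ˣ) (hz : ((z : 𝓞 K) : K) = ζ) (m : ℤ)
    (h : 1 - (z : 𝓞 K) ∣ (m : 𝓞 K)) : (5 : ℤ) ∣ m := by
  have hfact : Fact (Nat.Prime 5) := ⟨Nat.prime_five⟩
  have h1 : hζ.toInteger - 1 ∣ (m : 𝓞 K) := by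
    rw [← toInteger_eq hζ z hz, ← neg_sub, neg_dvd]
    exact h
  exact_mod_cast (IsCyclotomicExtension.Rat.zeta_sub_one_dvd_intCast_iff' 5 hζ).1 h1

theorem one_sub_ne (hζ : IsPrimitiveRoot ζ 5) (z : (𝓞 K)ˣ) (hz : ((z : 𝓞 K) : K) = ζ) :
    1 - (z : 𝓞 K) ≠ 0 := by
  intro h0
  have hcyc := cyc_eq hζ z hz
  have h1 : (z : 𝓞 K) = 1 := by linear_combination -h0
  rw [h1] at hcyc
  have h5 : ((5 : ℕ) : 𝓞 K) = 0 := by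
    push_cast
    linear_combination hcyc
  exact absurd (Nat.cast_eq_zero.1 h5) (by norm_num)

/-- Every unit is `z ^ i ε ^ j η ^ 5`. -/
theorem unit_form (hζ : IsPrimitiveRoot ζ 5) (z : (𝓞 K)ˣ) (hz : ((z : 𝓞 K) : K) = ζ) :
    ∃ ε : (𝓞 K)ˣ, (ε : 𝓞 K) = (z : 𝓞 K) ^ 2 + (z : 𝓞 K) ^ 3 ∧
      ∀ u : (𝓞 K)ˣ, ∃ (i j : ℕ) (η : (𝓞 K)ˣ), u = z ^ i * ε ^ j * η ^ 5 := by
  have hcyc := cyc_eq hζ z hz
  obtain ⟨ε, hε⟩ : ∃ ε : (𝓞 K)ˣ, (ε : 𝓞 K) = (z : 𝓞 K) ^ 2 + (z : 𝓞 K) ^ 3 :=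
    ⟨Units.mkOfMulEqOne _ _ (eps_mul (z : 𝓞 K) hcyc), rfl⟩
  refine ⟨ε, hε, fun u => ?_⟩
  obtain ⟨u₀, hu₀⟩ := exists_generator K hζ z hz
  obtain ⟨a, k, η, hεa⟩ := hu₀ ε
  obtain ⟨a', k', η', hu⟩ := hu₀ u
  have hπ : (1 - (z : 𝓞 K)) ≠ 0 := one_sub_ne hζ z hz
  have hz5 : z ^ 5 = 1 := by
    apply Units.ext
    push_cast
    linear_combination ((z : 𝓞 K) - 1) * hcyc
  by_cases hk : 5 ∣ k
  · exfalso
    obtain ⟨l, rfl⟩ := hk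
    obtain ⟨m, hm⟩ := exists_int_mod hζ z hz ((u₀ ^ l * η : (𝓞 K)ˣ) : 𝓞 K)
    have h1 := pow_five_cong _ _ (cube_dvd_five _ hcyc) m hm
    have e : z ^ (4 * a) * ε ^ 1 = (u₀ ^ l * η) ^ 5 := by
      have h4 : z ^ (4 * a) * z ^ a = 1 := by
        rw [← pow_add, show 4 * a + a = 5 * a by ring, pow_mul, hz5, one_pow]
      calc z ^ (4 * a) * ε ^ 1 = (z ^ (4 * a) * z ^ a) * (u₀ ^ l * η) ^ 5 := by
            rw [pow_one, hεa, mul_pow, ← pow_mul, mul_comm l 5]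
            simp only [mul_assoc]
        _ = (u₀ ^ l * η) ^ 5 := by rw [h4, one_mul]
    have e' : (1 - (1 - (z : 𝓞 K))) ^ (4 * a) *
        ((1 - (1 - (z : 𝓞 K))) ^ 2 + (1 - (1 - (z : 𝓞 K))) ^ 3) ^ 1 =
        ((u₀ ^ l * η : (𝓞 K)ˣ) : 𝓞 K) ^ 5 := by
      rw [← Units.val_pow_eq_pow_val, ← e]
      push_cast
      rw [hε]
      ring
    rw [← e'] at h1
    have h2 := (level (1 - (z : 𝓞 K)) hπ (cube_dvd_five _ hcyc) (int_of_dvd hζ z hz) (4 * a) 1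
      (m ^ 5) h1).2
    omega
  · -- `u₀` in terms of `ε`
    obtain ⟨l, m, hlm⟩ : ∃ l m : ℕ, k * l = 1 + 5 * m := by
      obtain ⟨s, t, hst, ht⟩ : ∃ s t : ℕ, k = 5 * s + t ∧ (t = 1 ∨ t = 2 ∨ t = 3 ∨ t = 4) :=
        ⟨k / 5, k % 5, by omega, by omega⟩
      rcases ht with rfl | rfl | rfl | rfl
      · exact ⟨1, s, by omega⟩
      · exact ⟨3, 3 * s + 1, by omega⟩
      · exact ⟨2, 2 * s + 1, by omega⟩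
      · exact ⟨4, 4 * s + 3, by omega⟩
    have h4 : z ^ (4 * (a * l)) * z ^ (a * l) = 1 := by
      rw [← pow_add, show 4 * (a * l) + a * l = 5 * (a * l) by ring, pow_mul, hz5, one_pow]
    have hεl : ε ^ l = z ^ (a * l) * (u₀ * (u₀ ^ m * η ^ l) ^ 5) := by
      rw [hεa, mul_pow, mul_pow, ← pow_mul, ← pow_mul, hlm, pow_add, pow_one, mul_pow, ← pow_mul,
        ← pow_mul, ← pow_mul, mul_comm 5 m, mul_comm 5 l]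
      simp only [mul_assoc]
    have hu0 : u₀ = z ^ (4 * (a * l)) * ε ^ l * ((u₀ ^ m * η ^ l)⁻¹) ^ 5 := by
      rw [hεl, ← mul_assoc, ← mul_assoc, h4, one_mul, inv_pow, mul_assoc, mul_inv_cancel, mul_one]
    refine ⟨a' + 4 * (a * l) * k', l * k', (u₀ ^ m * η ^ l)⁻¹ ^ k' * η', ?_⟩
    generalize (u₀ ^ m * η ^ l)⁻¹ = w at hu0
    rw [hu, hu0, mul_pow, mul_pow, mul_pow, ← pow_mul, ← pow_mul, ← pow_mul, ← pow_mul, pow_add,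
      mul_comm 5 k']
    simp only [mul_assoc]

/-- A unit that is near a fifth power above 5 is a fifth power. -/
theorem near_unit (hζ : IsPrimitiveRoot ζ 5) (z : (𝓞 K)ˣ) (hz : ((z : 𝓞 K) : K) = ζ)
    (u : (𝓞 K)ˣ) (h : ∀ v : HeightOneSpectrum (𝓞 K), v.valuation K ((5 : ℕ) : K) < 1 →
      Near 5 (1 - ζ) 0 v ((u : 𝓞 K) : K)) : ∃ η : (𝓞 K)ˣ, u = η ^ 5 := by
  have hcyc := cyc_eq hζ z hz
  obtain ⟨ε, hε, hform⟩ := unit_form hζ z hz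
  obtain ⟨i, j, η, hu⟩ := hform u
  obtain ⟨m, hm⟩ := near_cong K hζ z hz u h
  obtain ⟨m', hm'⟩ := exists_int_mod hζ z hz ((η⁻¹ : (𝓞 K)ˣ) : 𝓞 K)
  have h1 := pow_five_cong _ _ (cube_dvd_five _ hcyc) m' hm'
  have hπ : (1 - (z : 𝓞 K)) ≠ 0 := one_sub_ne hζ z hz
  have e : z ^ i * ε ^ j = u * (η⁻¹) ^ 5 := by
    rw [hu, inv_pow, mul_assoc, mul_inv_cancel, mul_one]
  have e' : (1 - (1 - (z : 𝓞 K))) ^ i *
      ((1 - (1 - (z : 𝓞 K))) ^ 2 + (1 - (1 - (z : 𝓞 K))) ^ 3) ^ j =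
      (u : 𝓞 K) * ((η⁻¹ : (𝓞 K)ˣ) : 𝓞 K) ^ 5 := by
    rw [← Units.val_pow_eq_pow_val, ← Units.val_mul, ← e]
    push_cast
    rw [hε]
    ring
  have h2 : (1 - (z : 𝓞 K)) ^ 3 ∣ (1 - (1 - (z : 𝓞 K))) ^ i *
      ((1 - (1 - (z : 𝓞 K))) ^ 2 + (1 - (1 - (z : 𝓞 K))) ^ 3) ^ j - ((m * m' ^ 5 : ℤ) : 𝓞 K) := by
    rw [e']
    have h3 := dvd_add (hm.mul_right (((η⁻¹ : (𝓞 K)ˣ) : 𝓞 K) ^ 5)) (h1.mul_left (m : 𝓞 K))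
    have e3 : ((u : 𝓞 K) - m) * ((η⁻¹ : (𝓞 K)ˣ) : 𝓞 K) ^ 5 +
        (m : 𝓞 K) * (((η⁻¹ : (𝓞 K)ˣ) : 𝓞 K) ^ 5 - (m' ^ 5 : ℤ)) =
        (u : 𝓞 K) * ((η⁻¹ : (𝓞 K)ˣ) : 𝓞 K) ^ 5 - ((m * m' ^ 5 : ℤ) : 𝓞 K) := by
      push_cast
      ring
    rwa [e3] at h3
  obtain ⟨⟨i', rfl⟩, ⟨j', rfl⟩⟩ := level (1 - (z : 𝓞 K)) hπ (cube_dvd_five _ hcyc)
    (int_of_dvd hζ z hz) i j _ h2
  refine ⟨z ^ i' * ε ^ j' * η, ?_⟩
  rw [hu, mul_pow, mul_pow, ← pow_mul, ← pow_mul, mul_comm 5 i', mul_comm 5 j']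

end field

end Pool.Agent.MP009fd8Q
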