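import Pool.Agent.Lib.MP_009fd8_agF.FinalL
import Pool.Agent.Lib.MP_009fd8_agQ.ClassNo
import Pool.Agent.Lib.MP_009fd8_agQ.Inert
import Pool.Agent.Lib.MP_009fd8_agQ.CritFive
import Pool.Agent.Lib.MP_009fd8_agQ.UnitsB

/-!
MP_009fd8_ag, example: K = Q(ζ5), all primes `q` congruent to 8, 12, 13 or 17 modulo 25: for the
three factors `J_r` of the Jacobian of `X ^ 5 + Y ^ 5 = q Z ^ 5` the Selmer group of `1 - ζ5` and the
image of `J_r(K)` are the group generated by `q`.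
-/

namespace Pool.Agent.MP009fd8Q

open NumberField IsDedekindDomain
open Pool.Agent.MP009fd8F (InImage Selmer)
open Pool.Agent.MP009fd8F.Crit

/-- In an abelian group, `n` has order `p` modulo `H` if `n` is not in `H` and `n ^ p` is. -/
theorem relIndex_sup_zpowers {G : Type} [CommGroup G] (H : Subgroup G) (n : G) {p : ℕ}
    (hp : p.Prime) (h1 : n ∉ H) (h2 : n ^ p ∈ H) : H.relIndex (Subgroup.zpowers n ⊔ H) = p := by
  rw [Subgroup.relIndex_sup_right, Subgroup.relIndex, Subgroup.index]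
  have : Fact p.Prime := ⟨hp⟩
  set N := H.subgroupOf (Subgroup.zpowers n) with hN
  set g : Subgroup.zpowers n ⧸ N := QuotientGroup.mk ⟨n, Subgroup.mem_zpowers n⟩ with hg
  have ho : orderOf g = p := by
    refine orderOf_eq_prime ?_ ?_
    · rw [hg, ← QuotientGroup.mk_pow, QuotientGroup.eq_one_iff]
      exact h2
    · rw [hg, Ne, QuotientGroup.eq_one_iff]
      exact h1
  have htop : Subgroup.zpowers g = ⊤ := by
    rw [eq_top_iff]
    intro x _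
    obtain ⟨⟨y, hy⟩, rfl⟩ := QuotientGroup.mk_surjective x
    obtain ⟨k, rfl⟩ := Subgroup.mem_zpowers_iff.1 hy
    refine Subgroup.mem_zpowers_iff.2 ⟨k, ?_⟩
    rw [hg, ← QuotientGroup.mk_zpow]
    rfl
  rw [← ho, ← Nat.card_zpowers, htop, Subgroup.card_top]

/-- **All three factors of Jac(X ^ 5 + Y ^ 5 = q Z ^ 5) over Q(ζ5), `q` a prime congruent to 8, 12, 13
or 17 modulo 25.** The Selmer group of `1 - ζ5` on `J_r` and the image of `J_r(K)` are both generated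
by `q`. -/
theorem quintic {K : Type} [Field K] [NumberField K] [IsCyclotomicExtension {5} ℚ K] {q r : ℕ}
    (hq : q.Prime) (hq25 : q % 25 = 8 ∨ q % 25 = 12 ∨ q % 25 = 13 ∨ q % 25 = 17)
    (hr : r = 1 ∨ r = 2 ∨ r = 3) (a : Kˣ) :
    (Selmer 5 r K (q : K) (a : K) ↔ ∃ (j : ℕ) (c : Kˣ), (a : K) = q ^ j * (c : K) ^ 5) ∧
      (InImage 5 r (q : K) (a : K) ↔ ∃ (j : ℕ) (c : Kˣ), (a : K) = q ^ j * (c : K) ^ 5) := by
  have hfact : Fact (Nat.Prime 5) := ⟨Nat.prime_five⟩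
  have hζ := IsCyclotomicExtension.zeta_spec 5 ℚ K
  set ζ := IsCyclotomicExtension.zeta 5 ℚ K with hζdef
  obtain ⟨z, hz0⟩ := hζ.toInteger_isPrimitiveRoot.isUnit (by norm_num)
  have hz : ((z : 𝓞 K) : K) = ζ := by
    rw [hz0]
    rfl
  have hq0 : (q : K) ≠ 0 := by exact_mod_cast hq.ne_zero
  set n : Kˣ := Units.mk0 (q : K) hq0 with hn
  have hnq : (n : K) = (q : K) := rfl
  set H : Subgroup Kˣ := (powMonoidHom 5 : Kˣ →* Kˣ).range with hH
  have hmemH : ∀ x : Kˣ, x ∈ H ↔ ∃ c : Kˣ, c ^ 5 = x := fun x => Iff.rfl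
  set P : Subgroup Kˣ := Subgroup.zpowers n ⊔ H with hP
  have hPiff : ∀ x : Kˣ, x ∈ P ↔ ∃ (j : ℕ) (c : Kˣ), (x : K) = q ^ j * (c : K) ^ 5 := by
    intro x
    constructor
    · intro hx
      obtain ⟨y, hy, w, hw, rfl⟩ := Subgroup.mem_sup.1 hx
      obtain ⟨k, rfl⟩ := Subgroup.mem_zpowers_iff.1 hy
      obtain ⟨c, rfl⟩ := (hmemH w).1 hw
      refine ⟨(k % 5).toNat, n ^ (k / 5) * c, ?_⟩
      have h1 : ((k % 5).toNat : ℤ) = k % 5 := Int.toNat_of_nonneg (Int.emod_nonneg _ (by norm_num))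
      have h2 : n ^ k * c ^ 5 = n ^ (k % 5).toNat * (n ^ (k / 5) * c) ^ 5 := by
        rw [mul_pow, ← mul_assoc, ← zpow_natCast n (k % 5).toNat, h1, ← zpow_natCast (n ^ (k / 5)) 5,
          ← zpow_mul, ← zpow_add]
        congr 2
        push_cast
        omega
      rw [h2]
      push_cast
      rw [hnq]
    · rintro ⟨j, c, hx⟩
      have h2 : x = n ^ j * c ^ 5 := by
        apply Units.ext
        push_cast
        rw [hx, hnq]
      rw [h2]
      exact mul_mem (Subgroup.mem_sup_left (pow_mem (Subgroup.mem_zpowers n) j))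
        (Subgroup.mem_sup_right ((hmemH _).2 ⟨c, rfl⟩))
  obtain ⟨v₀, hv₀⟩ := bad_places K q hq (by omega)
  have hnH : n ∉ H := by
    rintro ⟨c, hc⟩
    refine (hv₀ v₀).1 rfl ⟨v₀.valuation K (c : K), ?_⟩
    have h1 : (q : K) = (c : K) ^ 5 := by
      rw [← hnq, ← hc]
      rfl
    rw [h1, map_pow]
  have hrel : H.relIndex P = 5 :=
    relIndex_sup_zpowers H n Nat.prime_five hnH ((hmemH _).2 ⟨n, rfl⟩)
  have h := selmer_eq_image (p := 5) (r := r) Nat.prime_five (by omega) (by omega) hζ n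
    (fun _ => 0) (fun v hv => critAt K hζ q r hq25 hr v hv) P
    (fun c => Subgroup.mem_sup_right ((hmemH _).2 ⟨c, rfl⟩))
    (fun x hx => by
      obtain ⟨j, c, hxe⟩ := (hPiff x).1 hx
      rw [hxe, hnq]
      exact InImage.pow_mul hq0 c.ne_zero j)
    (Or.inl ⟨not_dvd_classNumber K, ∅, {v₀}, fun v _ => rfl, fun v => by
      rw [Finset.mem_singleton]
      exact hv₀ v, fun u hu => near_unit hζ z hz u hu, by
      rw [hrel]
      simp⟩) a
  rw [hnq, hPiff] at h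
  exact h

/-- The general statement for one bad place, `K = Q(ζ5)`. -/
theorem one_bad_place {K : Type} [Field K] [NumberField K] [IsCyclotomicExtension {5} ℚ K] {ζ : K}
    (hζ : IsPrimitiveRoot ζ 5) {r : ℕ} (hr1 : 1 ≤ r) (hr2 : r + 2 ≤ 5) (n : Kˣ)
    (v₀ : HeightOneSpectrum (𝓞 K))
    (hv₀ : ∀ v : HeightOneSpectrum (𝓞 K), v = v₀ ↔ ¬ ∃ w, v.valuation K (n : K) = w ^ 5)
    (hcrit : ∀ v : HeightOneSpectrum (𝓞 K), v.valuation K ((5 : ℕ) : K) < 1 →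
      CritAt 5 r (1 - ζ) (n : K) 0 v) (a : Kˣ) :
    (Selmer 5 r K (n : K) (a : K) ↔ ∃ (j : ℕ) (c : Kˣ), (a : K) = (n : K) ^ j * (c : K) ^ 5) ∧
      (InImage 5 r (n : K) (a : K) ↔
        ∃ (j : ℕ) (c : Kˣ), (a : K) = (n : K) ^ j * (c : K) ^ 5) := by
  have hfact : Fact (Nat.Prime 5) := ⟨Nat.prime_five⟩
  obtain ⟨z, hz0⟩ := hζ.toInteger_isPrimitiveRoot.isUnit (by norm_num)
  have hz : ((z : 𝓞 K) : K) = ζ := by
    rw [hz0]
    rfl
  set H : Subgroup Kˣ := (powMonoidHom 5 : Kˣ →* Kˣ).range with hH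
  have hmemH : ∀ x : Kˣ, x ∈ H ↔ ∃ c : Kˣ, c ^ 5 = x := fun x => Iff.rfl
  set P : Subgroup Kˣ := Subgroup.zpowers n ⊔ H with hP
  have hPiff : ∀ x : Kˣ, x ∈ P ↔ ∃ (j : ℕ) (c : Kˣ), (x : K) = (n : K) ^ j * (c : K) ^ 5 := by
    intro x
    constructor
    · intro hx
      obtain ⟨y, hy, w, hw, rfl⟩ := Subgroup.mem_sup.1 hx
      obtain ⟨k, rfl⟩ := Subgroup.mem_zpowers_iff.1 hy
      obtain ⟨c, rfl⟩ := (hmemH w).1 hw
      refine ⟨(k % 5).toNat, n ^ (k / 5) * c, ?_⟩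
      have h1 : ((k % 5).toNat : ℤ) = k % 5 := Int.toNat_of_nonneg (Int.emod_nonneg _ (by norm_num))
      have h2 : n ^ k * c ^ 5 = n ^ (k % 5).toNat * (n ^ (k / 5) * c) ^ 5 := by
        rw [mul_pow, ← mul_assoc, ← zpow_natCast n (k % 5).toNat, h1, ← zpow_natCast (n ^ (k / 5)) 5,
          ← zpow_mul, ← zpow_add]
        congr 2
        push_cast
        omega
      rw [h2]
      push_cast
      rfl
    · rintro ⟨j, c, hx⟩
      have h2 : x = n ^ j * c ^ 5 := by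
        apply Units.ext
        push_cast
        rw [hx]
      rw [h2]
      exact mul_mem (Subgroup.mem_sup_left (pow_mem (Subgroup.mem_zpowers n) j))
        (Subgroup.mem_sup_right ((hmemH _).2 ⟨c, rfl⟩))
  have hnH : n ∉ H := by
    rintro ⟨c, hc⟩
    refine (hv₀ v₀).1 rfl ⟨v₀.valuation K (c : K), ?_⟩
    have h1 : (n : K) = (c : K) ^ 5 := by
      rw [← hc]
      rfl
    rw [h1, map_pow]
  have hrel : H.relIndex P = 5 :=
    relIndex_sup_zpowers H n Nat.prime_five hnH ((hmemH _).2 ⟨n, rfl⟩)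
  have h := selmer_eq_image (p := 5) (r := r) Nat.prime_five hr1 hr2 hζ n
    (fun _ => 0) (fun v hv => hcrit v hv) P
    (fun c => Subgroup.mem_sup_right ((hmemH _).2 ⟨c, rfl⟩))
    (fun x hx => by
      obtain ⟨j, c, hxe⟩ := (hPiff x).1 hx
      rw [hxe]
      exact InImage.pow_mul n.ne_zero c.ne_zero j)
    (Or.inl ⟨not_dvd_classNumber K, ∅, {v₀}, fun v _ => rfl, fun v => by
      rw [Finset.mem_singleton]
      exact hv₀ v, fun u hu => near_unit hζ z hz u hu, by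
      rw [hrel]
      simp⟩) a
  rw [hPiff] at h
  exact h

/-- Powers with exponent prime to 5. -/
theorem fifth_pow_iff {G : Type} [CommGroupWithZero G] (x : G) {j : ℕ} (hj : ¬ 5 ∣ j) :
    (∃ w, x ^ j = w ^ 5) ↔ ∃ w, x = w ^ 5 := by
  constructor
  · rintro ⟨w, hw⟩
    rcases eq_or_ne x 0 with rfl | hx
    · exact ⟨0, by simp⟩
    obtain ⟨l, m, hlm⟩ : ∃ l m : ℕ, j * l = 1 + 5 * m := by
      obtain ⟨s, t, hst, ht⟩ : ∃ s t : ℕ, j = 5 * s + t ∧ (t = 1 ∨ t = 2 ∨ t = 3 ∨ t = 4) :=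
        ⟨j / 5, j % 5, by omega, by omega⟩
      rcases ht with rfl | rfl | rfl | rfl
      · exact ⟨1, s, by omega⟩
      · exact ⟨3, 3 * s + 1, by omega⟩
      · exact ⟨2, 2 * s + 1, by omega⟩
      · exact ⟨4, 4 * s + 3, by omega⟩
    refine ⟨w ^ l * (x ^ m)⁻¹, ?_⟩
    have h1 : (w ^ l) ^ 5 = x * (x ^ m) ^ 5 := by
      rw [← pow_mul, mul_comm l 5, pow_mul, ← hw, ← pow_mul, hlm, pow_add, pow_one, ← pow_mul,
        mul_comm 5 m]
    rw [mul_pow, h1, inv_pow, mul_assoc, mul_inv_cancel₀ (pow_ne_zero _ (pow_ne_zero _ hx)),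
      mul_one]
  · rintro ⟨w, rfl⟩
    exact ⟨w ^ j, by rw [← pow_mul, ← pow_mul, mul_comm]⟩

/-- **Twists by powers of inert primes.** `K = Q(ζ5)`, `q` a prime congruent to 2 or 3 modulo 5,
`n = q ^ j` with `j` prime to 5, `n ^ 4` modulo 25 in the table. The Selmer group of `1 - ζ5` on
`J_(r,n)` and the image of `J_(r,n)(K)` are both generated by `n`. -/
theorem quintic_pow {K : Type} [Field K] [NumberField K] [IsCyclotomicExtension {5} ℚ K]
    {q j n r : ℕ} (hq : q.Prime) (hq5 : q % 5 = 2 ∨ q % 5 = 3) (hj : ¬ 5 ∣ j) (hn : n = q ^ j)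
    (hgood : (r = 1 ∧ (n ^ 4 % 25 = 11 ∨ n ^ 4 % 25 = 16 ∨ n ^ 4 % 25 = 21)) ∨
      ((r = 2 ∨ r = 3) ∧ (n ^ 4 % 25 = 6 ∨ n ^ 4 % 25 = 11 ∨ n ^ 4 % 25 = 21))) (a : Kˣ) :
    (Selmer 5 r K (n : K) (a : K) ↔ ∃ (i : ℕ) (c : Kˣ), (a : K) = (n : K) ^ i * (c : K) ^ 5) ∧
      (InImage 5 r (n : K) (a : K) ↔
        ∃ (i : ℕ) (c : Kˣ), (a : K) = (n : K) ^ i * (c : K) ^ 5) := by
  have hζ := IsCyclotomicExtension.zeta_spec 5 ℚ K
  have hr : 1 ≤ r ∧ r + 2 ≤ 5 := by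
    rcases hgood with ⟨h, _⟩ | ⟨h | h, _⟩ <;> omega
  have hn0 : (n : K) ≠ 0 := by
    rw [Nat.cast_ne_zero, hn]
    exact pow_ne_zero _ hq.ne_zero
  obtain ⟨v₀, hv₀⟩ := bad_places K q hq hq5
  exact one_bad_place hζ hr.1 hr.2 (Units.mk0 (n : K) hn0) v₀ (fun v => by
    rw [hv₀ v, Units.val_mk0, hn]
    push_cast
    rw [map_pow, fifth_pow_iff _ hj]) (fun v hv => critAt_good K hζ n r hgood v hv) a

end Pool.Agent.MP009fd8Q
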