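import Mathlib

/-!
MP_009fd8_ag, example of positive rank, leaf: the valuations of two prime elements.
-/

namespace Pool.Agent.MP009fd8Q

open NumberField IsDedekindDomain

private theorem twoPlaces_eq_one {K : Type} [Field K] [NumberField K]
    (v : HeightOneSpectrum (𝓞 K)) (z : 𝓞 K) (hz : z ∉ v.asIdeal) :
    v.valuation K (z : K) = 1 := by
  rw [show (z : K) = algebraMap (𝓞 K) K z from rfl, HeightOneSpectrum.valuation_of_algebraMap]
  exact (HeightOneSpectrum.intValuation_eq_one_iff_mem_primeCompl v z).2 hz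

private theorem twoPlaces_eq_exp {K : Type} [Field K] [NumberField K]
    (v : HeightOneSpectrum (𝓞 K)) (z : 𝓞 K) (hz : z ≠ 0) (h : v.asIdeal = Ideal.span {z}) :
    v.valuation K (z : K) = WithZero.exp (-1 : ℤ) := by
  rw [show (z : K) = algebraMap (𝓞 K) K z from rfl, HeightOneSpectrum.valuation_of_algebraMap]
  exact HeightOneSpectrum.intValuation_singleton v hz h

private theorem twoPlaces_ne {K : Type} [Field K] [NumberField K]
    (v v' : HeightOneSpectrum (𝓞 K)) (z : 𝓞 K) (h : v.asIdeal = Ideal.span {z}) (hv : v' ≠ v) :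
    z ∉ v'.asIdeal := by
  intro hz
  have h1 : v.asIdeal ≤ v'.asIdeal := by
    rw [h, Ideal.span_singleton_le_iff_mem]
    exact hz
  have h2 : v.asIdeal = v'.asIdeal := v.isMaximal.eq_of_le v'.isPrime.ne_top h1
  exact hv (HeightOneSpectrum.ext h2.symm)

/-- Proof. `v₁`, `v₂` are the places with ideals `span {x}`, `span {y}`
(`HeightOneSpectrum` structure: prime and nonzero). `v₁(x) = exp (-1)`:
`HeightOneSpectrum.intValuation_singleton` (or `valuation_of_algebraMap` and `intValuation_def`);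
`v₁(y) = 1` as `y` is not in `span {x}` (`HeightOneSpectrum.valuation_lt_one_iff_dvd`,
`valuation_le_one`). For another `v`: if `x` were in `v.asIdeal` then `span {x} ≤ v.asIdeal`, both are
maximal (dimension one), so they are equal. -/
theorem two_places_of {K : Type} [Field K] [NumberField K] (x y : 𝓞 K)
    (hx : (Ideal.span {x}).IsPrime) (hx0 : x ≠ 0) (hy : (Ideal.span {y}).IsPrime) (hy0 : y ≠ 0)
    (hxy : ¬ x ∣ y) (hyx : ¬ y ∣ x) :
    ∃ v₁ v₂ : HeightOneSpectrum (𝓞 K),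
      v₁.valuation K (x : K) = WithZero.exp (-1 : ℤ) ∧ v₁.valuation K (y : K) = 1 ∧
      v₂.valuation K (x : K) = 1 ∧ v₂.valuation K (y : K) = WithZero.exp (-1 : ℤ) ∧
      ∀ v : HeightOneSpectrum (𝓞 K), v ≠ v₁ → v ≠ v₂ →
        v.valuation K (x : K) = 1 ∧ v.valuation K (y : K) = 1 := by
  obtain ⟨v₁, h1⟩ : ∃ v : HeightOneSpectrum (𝓞 K), v.asIdeal = Ideal.span {x} :=
    ⟨⟨Ideal.span {x}, hx, fun h => hx0 (Ideal.span_singleton_eq_bot.1 h)⟩, rfl⟩
  obtain ⟨v₂, h2⟩ : ∃ v : HeightOneSpectrum (𝓞 K), v.asIdeal = Ideal.span {y} :=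
    ⟨⟨Ideal.span {y}, hy, fun h => hy0 (Ideal.span_singleton_eq_bot.1 h)⟩, rfl⟩
  refine ⟨v₁, v₂, twoPlaces_eq_exp v₁ x hx0 h1, twoPlaces_eq_one v₁ y ?_,
    twoPlaces_eq_one v₂ x ?_, twoPlaces_eq_exp v₂ y hy0 h2, fun v hv1 hv2 =>
      ⟨twoPlaces_eq_one v x (twoPlaces_ne v₁ v x h1 hv1),
        twoPlaces_eq_one v y (twoPlaces_ne v₂ v y h2 hv2)⟩⟩
  · rw [h1, Ideal.mem_span_singleton]
    exact hxy
  · rw [h2, Ideal.mem_span_singleton]
    exact hyx

end Pool.Agent.MP009fd8Q
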