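import Pool.Agent.Lib.MP_009fd8_agQ.Quintic
import Pool.Agent.Lib.MP_009fd8_agQ.PrimeElt
import Pool.Agent.Lib.MP_009fd8_agQ.TwoPlaces
import Pool.Agent.Lib.MP_009fd8_agQ.CritPoint

/-!
MP_009fd8_ag, example of positive rank: K = Q(ζ5), `r = 1`,
`n = 4 - 10 ζ - 5 ζ ^ 3 = w (w ^ 3 (1 + ζ) ^ 5 - 1)`, `w = 1 + ζ - ζ ^ 2 + 2 ζ ^ 3`.
-/

namespace Pool.Agent.MP009fd8Q

open NumberField IsDedekindDomain
open Pool.Agent.MP009fd8F (InImage Selmer IsNormValue image)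
open Pool.Agent.MP009fd8F.Crit

theorem zpow_eq_pow_mul {G : Type} [CommGroup G] (g : G) (k : ℤ) :
    ∃ (i : ℕ) (h : G), g ^ k = g ^ i * h ^ 5 := by
  refine ⟨(k % 5).toNat, g ^ (k / 5), ?_⟩
  have h1 : ((k % 5).toNat : ℤ) = k % 5 := Int.toNat_of_nonneg (Int.emod_nonneg _ (by norm_num))
  rw [← zpow_natCast g (k % 5).toNat, h1, ← zpow_natCast (g ^ (k / 5)) 5, ← zpow_mul, ← zpow_add]
  congr 1
  push_cast
  omega

/-- The elements of the group generated by `n`, `w` and the fifth powers. -/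
theorem mem_sup_sup {G : Type} [CommGroup G] (n w x : G) :
    x ∈ Subgroup.zpowers w ⊔ (Subgroup.zpowers n ⊔ (powMonoidHom 5 : G →* G).range) ↔
      ∃ (i j : ℕ) (c : G), x = n ^ i * w ^ j * c ^ 5 := by
  constructor
  · intro hx
    obtain ⟨y, hy, y', hy', rfl⟩ := Subgroup.mem_sup.1 hx
    obtain ⟨u, hu, u', ⟨c, rfl⟩, rfl⟩ := Subgroup.mem_sup.1 hy'
    obtain ⟨k, rfl⟩ := Subgroup.mem_zpowers_iff.1 hy
    obtain ⟨l, rfl⟩ := Subgroup.mem_zpowers_iff.1 hu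
    obtain ⟨i, h, hi⟩ := zpow_eq_pow_mul w k
    obtain ⟨j, h', hj⟩ := zpow_eq_pow_mul n l
    refine ⟨j, i, h * h' * c, ?_⟩
    rw [hi, hj, mul_pow, mul_pow, powMonoidHom_apply]
    simp only [mul_comm, mul_left_comm, mul_assoc]
  · rintro ⟨i, j, c, rfl⟩
    refine mul_mem (mul_mem ?_ ?_) ?_
    · exact Subgroup.mem_sup_right (Subgroup.mem_sup_left (pow_mem (Subgroup.mem_zpowers n) i))
    · exact Subgroup.mem_sup_left (pow_mem (Subgroup.mem_zpowers w) j)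
    · exact Subgroup.mem_sup_right (Subgroup.mem_sup_right ⟨c, rfl⟩)

theorem relIndex_two {G : Type} [CommGroup G] (n w : G)
    (hn : ∀ c : G, c ^ 5 ≠ n) (hw : ∀ (k : ℤ) (c : G), n ^ k * c ^ 5 ≠ w) :
    (powMonoidHom 5 : G →* G).range.relIndex
      (Subgroup.zpowers w ⊔ (Subgroup.zpowers n ⊔ (powMonoidHom 5 : G →* G).range)) = 25 := by
  have h1 : (powMonoidHom 5 : G →* G).range.relIndex
      (Subgroup.zpowers n ⊔ (powMonoidHom 5 : G →* G).range) = 5 :=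
    relIndex_sup_zpowers _ n Nat.prime_five (by rintro ⟨c, hc⟩; exact hn c hc) ⟨n, rfl⟩
  have h2 : (Subgroup.zpowers n ⊔ (powMonoidHom 5 : G →* G).range).relIndex
      (Subgroup.zpowers w ⊔ (Subgroup.zpowers n ⊔ (powMonoidHom 5 : G →* G).range)) = 5 := by
    refine relIndex_sup_zpowers _ w Nat.prime_five ?_ (Subgroup.mem_sup_right ⟨w, rfl⟩)
    intro hx
    obtain ⟨u, hu, u', ⟨c, rfl⟩, he⟩ := Subgroup.mem_sup.1 hx
    obtain ⟨l, rfl⟩ := Subgroup.mem_zpowers_iff.1 hu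
    exact hw l c he
  rw [← Subgroup.relIndex_mul_relIndex _ _ _ le_sup_right le_sup_right, h1, h2]

theorem exp_exists {x : WithZero (Multiplicative ℤ)} (h : x ≠ 0) :
    ∃ m : ℤ, x = WithZero.exp m := ⟨WithZero.log x, (WithZero.exp_log h).symm⟩

section point

variable {K : Type} [Field K] [NumberField K] [IsCyclotomicExtension {5} ℚ K] {ζ : K}

/-- The two bad places of `n`. -/
theorem bad_two (hζ : IsPrimitiveRoot ζ 5) :
    ∃ v₁ v₂ : HeightOneSpectrum (𝓞 K),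
      v₁.valuation K (1 + ζ - ζ ^ 2 + 2 * ζ ^ 3) = WithZero.exp (-1 : ℤ) ∧
      v₁.valuation K (4 - 10 * ζ - 5 * ζ ^ 3) = WithZero.exp (-1 : ℤ) ∧
      v₂.valuation K (1 + ζ - ζ ^ 2 + 2 * ζ ^ 3) = 1 ∧
      v₂.valuation K (4 - 10 * ζ - 5 * ζ ^ 3) = WithZero.exp (-1 : ℤ) ∧
      ∀ v : HeightOneSpectrum (𝓞 K), v ≠ v₁ → v ≠ v₂ →
        v.valuation K (4 - 10 * ζ - 5 * ζ ^ 3) = 1 := by
  have hfact : Fact (Nat.Prime 5) := ⟨Nat.prime_five⟩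
  obtain ⟨z, hz0⟩ := hζ.toInteger_isPrimitiveRoot.isUnit (by norm_num)
  have hz : ((z : 𝓞 K) : K) = ζ := by
    rw [hz0]
    rfl
  have hcyc := cyc_eq hζ z hz
  set Z : 𝓞 K := (z : 𝓞 K) with hZ
  have h5 : Z ^ 5 = 1 := by linear_combination (Z - 1) * hcyc
  set x : 𝓞 K := 1 + Z - Z ^ 2 + 2 * Z ^ 3 with hx
  set y : 𝓞 K := -Z - 4 * Z ^ 2 - 7 * Z ^ 3 with hy
  have hxN : ((11 : ℕ) : 𝓞 K) = x * (5 + 6 * Z + 4 * Z ^ 2 - 3 * Z ^ 3) := by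
    push_cast
    linear_combination (6 - 17 * Z + 6 * Z ^ 2) * hcyc
  have hyN : ((1381 : ℕ) : 𝓞 K) = y * (-41 + 109 * Z - 204 * Z ^ 2 - 2 * Z ^ 3) := by
    push_cast
    linear_combination (1381 - 1422 * Z - 14 * Z ^ 2) * hcyc
  have hxt : Z - (5 : ℤ) = x * (-2 - 2 * Z - Z ^ 2 + 2 * Z ^ 3) := by
    push_cast
    linear_combination (-3 + 8 * Z - 4 * Z ^ 2) * hcyc
  have hyt : Z - (101 : ℤ) = y * (3 - 8 * Z + 15 * Z ^ 2) := by
    push_cast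
    linear_combination (-101 + 105 * Z) * hcyc
  have hn : x * y = 4 - 10 * Z - 5 * Z ^ 3 := by
    linear_combination (-4 + 13 * Z - 14 * Z ^ 2) * hcyc
  obtain ⟨hxp, hx0⟩ := prime_span hζ z hz (N := 11) (by norm_num) 5 1 1 (-1) 2 (by norm_num)
    (by norm_num) x (by rw [hx]; push_cast; ring) ⟨_, hxN⟩ ⟨_, hxt⟩
  obtain ⟨hyp, hy0⟩ := prime_span hζ z hz (N := 1381) (by norm_num) 101 0 (-1) (-4) (-7)
    (by norm_num) (by norm_num) y (by rw [hy]; push_cast; ring) ⟨_, hyN⟩ ⟨_, hyt⟩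
  have hcop : ∀ u : 𝓞 K, (Ideal.span {u}).IsPrime → ¬ (u ∣ ((11 : ℕ) : 𝓞 K) ∧
      u ∣ ((1381 : ℕ) : 𝓞 K)) := by
    rintro u hu ⟨h1, h2⟩
    refine hu.ne_top ((Ideal.eq_top_iff_one _).2 (Ideal.mem_span_singleton.2 ?_))
    have h3 := dvd_sub (h2.mul_right (2 : 𝓞 K)) (h1.mul_right (251 : 𝓞 K))
    have e : ((1381 : ℕ) : 𝓞 K) * 2 - ((11 : ℕ) : 𝓞 K) * 251 = 1 := by
      push_cast
      norm_num
    rwa [e] at h3
  have hxy : ¬ x ∣ y := fun h => hcop x hxp ⟨⟨_, hxN⟩, h.trans ⟨_, hyN⟩⟩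
  have hyx : ¬ y ∣ x := fun h => hcop y hyp ⟨h.trans ⟨_, hxN⟩, ⟨_, hyN⟩⟩
  obtain ⟨v₁, v₂, h1x, h1y, h2x, h2y, hv⟩ := two_places_of x y hxp hx0 hyp hy0 hxy hyx
  have hZζ : algebraMap (𝓞 K) K Z = ζ := hz
  have hcoe : algebraMap (𝓞 K) K x = 1 + ζ - ζ ^ 2 + 2 * ζ ^ 3 := by
    rw [hx]
    simp only [map_add, map_sub, map_mul, map_pow, map_one, map_ofNat, hZζ]
  have hcoen : algebraMap (𝓞 K) K x * algebraMap (𝓞 K) K y = 4 - 10 * ζ - 5 * ζ ^ 3 := by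
    rw [← map_mul, hn]
    simp only [map_sub, map_mul, map_pow, map_ofNat, hZζ]
  refine ⟨v₁, v₂, ?_, ?_, ?_, ?_, fun v hv1 hv2 => ?_⟩
  · rw [← hcoe, h1x]
  · rw [← hcoen, map_mul, h1x, h1y, mul_one]
  · rw [← hcoe, h2x]
  · rw [← hcoen, map_mul, h2x, h2y, one_mul]
  · rw [← hcoen, map_mul, (hv v hv1 hv2).1, (hv v hv1 hv2).2, mul_one]

omit [NumberField K] [IsCyclotomicExtension {5} ℚ K] in
theorem cyc_field (hζ : IsPrimitiveRoot ζ 5) : 1 + ζ + ζ ^ 2 + ζ ^ 3 + ζ ^ 4 = 0 := by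
  have h1 := hζ.geom_sum_eq_zero (by norm_num)
  simpa [Finset.sum_range_succ] using h1

omit [IsCyclotomicExtension {5} ℚ K] in
/-- The point `(w, w (1 + ζ))`. -/
theorem point_image (hζ : IsPrimitiveRoot ζ 5) (hw0 : 1 + ζ - ζ ^ 2 + 2 * ζ ^ 3 ≠ 0) :
    InImage 5 1 (4 - 10 * ζ - 5 * ζ ^ 3) (1 + ζ - ζ ^ 2 + 2 * ζ ^ 3) := by
  have hcyc := cyc_field hζ
  have h1 : 1 + ζ ≠ 0 := by
    intro h
    have e : (1 + ζ) * (-(ζ + ζ ^ 3)) = 1 := by linear_combination -hcyc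
    rw [h, zero_mul] at e
    exact zero_ne_one e
  set w := 1 + ζ - ζ ^ 2 + 2 * ζ ^ 3 with hw
  set n := 4 - 10 * ζ - 5 * ζ ^ 3 with hn
  have hpt : w * (w + n) = (w * (1 + ζ)) ^ 5 := by
    rw [hw, hn]
    linear_combination (4 - 18 * ζ - 41 * ζ ^ 2 - 15 * ζ ^ 3 - 80 * ζ ^ 4 - 77 * ζ ^ 5 -
      203 * ζ ^ 6 - 125 * ζ ^ 7 - 75 * ζ ^ 8 - 330 * ζ ^ 9 - 167 * ζ ^ 10 - 23 * ζ ^ 11 -
      210 * ζ ^ 12 - 120 * ζ ^ 13 - 48 * ζ ^ 15 - 32 * ζ ^ 16) * hcyc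
  have hwn : w + n ≠ 0 := by
    intro h
    rw [h, mul_zero] at hpt
    exact pow_ne_zero 5 (mul_ne_zero hw0 h1) hpt.symm
  refine ⟨Units.mk0 w hw0, rfl, Subgroup.subset_closure (Or.inr (Or.inr ?_))⟩
  refine ⟨K, inferInstance, inferInstance, inferInstance, ?_, w, w * (1 + ζ), hw0, ?_, ?_, ?_⟩
  · rw [Module.finrank_self]
    norm_num
  · simpa using hwn
  · simpa using hpt
  · simp

/-- **Positive rank.** `K = Q(ζ5)`, `r = 1`, `n = 4 - 10 ζ - 5 ζ ^ 3 = w (w ^ 3 (1 + ζ) ^ 5 - 1)`,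
`w = 1 + ζ - ζ ^ 2 + 2 ζ ^ 3`: the Selmer group of `1 - ζ` and the image of `J(K)` are generated by
`n` and `w`, which are independent modulo fifth powers. -/
theorem rank_one (hζ : IsPrimitiveRoot ζ 5) :
    (∀ a : Kˣ, (Selmer 5 1 K (4 - 10 * ζ - 5 * ζ ^ 3) (a : K) ↔ ∃ (i j : ℕ) (c : Kˣ),
        (a : K) = (4 - 10 * ζ - 5 * ζ ^ 3) ^ i * (1 + ζ - ζ ^ 2 + 2 * ζ ^ 3) ^ j * (c : K) ^ 5) ∧
      (InImage 5 1 (4 - 10 * ζ - 5 * ζ ^ 3) (a : K) ↔ ∃ (i j : ℕ) (c : Kˣ),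
        (a : K) = (4 - 10 * ζ - 5 * ζ ^ 3) ^ i * (1 + ζ - ζ ^ 2 + 2 * ζ ^ 3) ^ j * (c : K) ^ 5)) ∧
    ∀ (i j : ℕ) (c : K), (4 - 10 * ζ - 5 * ζ ^ 3) ^ i * (1 + ζ - ζ ^ 2 + 2 * ζ ^ 3) ^ j = c ^ 5 →
      5 ∣ i ∧ 5 ∣ j := by
  classical
  have hfact : Fact (Nat.Prime 5) := ⟨Nat.prime_five⟩
  obtain ⟨z, hz0⟩ := hζ.toInteger_isPrimitiveRoot.isUnit (by norm_num)
  have hz : ((z : 𝓞 K) : K) = ζ := by
    rw [hz0]
    rfl
  obtain ⟨v₁, v₂, h1w, h1n, h2w, h2n, hv⟩ := bad_two hζ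
  have hw0 : 1 + ζ - ζ ^ 2 + 2 * ζ ^ 3 ≠ 0 := by
    intro h
    rw [h, map_zero] at h2w
    exact zero_ne_one h2w
  have hn0 : 4 - 10 * ζ - 5 * ζ ^ 3 ≠ 0 := by
    intro h
    rw [h, map_zero] at h2n
    exact WithZero.exp_ne_zero h2n.symm
  have himg := point_image hζ hw0
  have hcrit := critAt_point K hζ
  generalize 1 + ζ - ζ ^ 2 + 2 * ζ ^ 3 = w at *
  generalize 4 - 10 * ζ - 5 * ζ ^ 3 = n at *
  obtain ⟨W, rfl⟩ : ∃ W : Kˣ, (W : K) = w := ⟨Units.mk0 w hw0, rfl⟩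
  obtain ⟨N, rfl⟩ : ∃ N : Kˣ, (N : K) = n := ⟨Units.mk0 n hn0, rfl⟩
  -- independence
  have hind : ∀ (i j : ℕ) (c : K), (N : K) ^ i * (W : K) ^ j = c ^ 5 → 5 ∣ i ∧ 5 ∣ j := by
    intro i j c h
    have hc : c ≠ 0 := by
      rintro rfl
      rw [zero_pow (by norm_num)] at h
      exact mul_ne_zero (pow_ne_zero _ hn0) (pow_ne_zero _ hw0) h
    obtain ⟨m, hm⟩ := exp_exists ((Valuation.ne_zero_iff (v₁.valuation K)).2 hc)
    obtain ⟨m', hm'⟩ := exp_exists ((Valuation.ne_zero_iff (v₂.valuation K)).2 hc)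
    have e1 := congrArg (v₁.valuation K) h
    have e2 := congrArg (v₂.valuation K) h
    rw [map_mul, map_pow, map_pow, map_pow, h1w, h1n, hm, ← WithZero.exp_nsmul,
      ← WithZero.exp_nsmul, ← WithZero.exp_nsmul, ← WithZero.exp_add, WithZero.exp_inj] at e1
    rw [map_mul, map_pow, map_pow, map_pow, h2w, h2n, hm', one_pow, mul_one,
      ← WithZero.exp_nsmul, ← WithZero.exp_nsmul, WithZero.exp_inj] at e2
    simp only [nsmul_eq_mul] at e1 e2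
    push_cast at e1 e2
    omega
  have hN5 : ∀ c : Kˣ, c ^ 5 ≠ N := by
    intro c hc
    have := (hind 1 0 (c : K) (by rw [← hc]; push_cast; ring)).1
    omega
  have hW5 : ∀ (k : ℤ) (c : Kˣ), N ^ k * c ^ 5 ≠ W := by
    intro k c hc
    obtain ⟨i, h, hi⟩ := zpow_eq_pow_mul N k
    rw [hi] at hc
    have h2 : N ^ (4 * i) * W ^ 1 = (N ^ i * h * c) ^ 5 := by
      rw [← hc, pow_one, mul_pow (N ^ i * h) c 5, mul_pow (N ^ i) h 5, ← pow_mul N i 5,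
        show i * 5 = 4 * i + i by ring, pow_add]
      simp only [mul_assoc]
    have := (hind (4 * i) 1 ((N ^ i * h * c : Kˣ) : K) (by exact_mod_cast congrArg Units.val h2)).2
    omega
  set P : Subgroup Kˣ := Subgroup.zpowers W ⊔ (Subgroup.zpowers N ⊔
    (powMonoidHom 5 : Kˣ →* Kˣ).range) with hP
  have hPiff : ∀ x : Kˣ, x ∈ P ↔ ∃ (i j : ℕ) (c : Kˣ),
      (x : K) = (N : K) ^ i * (W : K) ^ j * (c : K) ^ 5 := by
    intro x
    rw [hP, mem_sup_sup]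
    refine exists_congr fun i => exists_congr fun j => exists_congr fun c => ?_
    rw [← Units.val_inj]
    push_cast
    rfl
  have hpow : ∀ {b : K}, InImage 5 1 (N : K) b → ∀ j : ℕ, InImage 5 1 (N : K) (b ^ j) := by
    intro b hb j
    induction j with
    | zero => simpa using InImage.pow (p := 5) (r := 1) (n := (N : K)) (one_ne_zero (α := K))
    | succ j ih => rw [pow_succ]; exact ih.mul hb
  have hne : v₁ ≠ v₂ := by
    rintro rfl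
    rw [h1w] at h2w
    exact absurd (WithZero.exp_inj.1 (h2w.trans WithZero.exp_zero.symm)) (by norm_num)
  refine ⟨fun a => ?_, hind⟩
  have h := selmer_eq_image (p := 5) (r := 1) Nat.prime_five (by omega) (by omega) hζ N
    (fun _ => 0) (fun v hv => hcrit v hv) P
    (fun c => Subgroup.mem_sup_right (Subgroup.mem_sup_right ⟨c, rfl⟩))
    (fun x hx => by
      obtain ⟨i, j, c, hxe⟩ := (hPiff x).1 hx
      rw [hxe]
      exact ((hpow (InImage.self hn0) i).mul (hpow himg j)).mul (InImage.pow c.ne_zero))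
    (Or.inl ⟨not_dvd_classNumber K, ∅, {v₁, v₂}, fun v _ => rfl, fun v => by
      rw [Finset.mem_insert, Finset.mem_singleton]
      constructor
      · rintro (rfl | rfl) ⟨w, hw⟩
        · exact Inert_not_fifth w (h1n.symm.trans hw)
        · exact Inert_not_fifth w (h2n.symm.trans hw)
      · intro h
        by_contra hcon
        push Not at hcon
        exact h ⟨1, by rw [hv v hcon.1 hcon.2, one_pow]⟩, fun u hu => near_unit hζ z hz u hu, by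
      rw [relIndex_two N W hN5 hW5, Finset.card_empty, Finset.card_pair hne]
      norm_num⟩) a
  rw [hPiff] at h
  exact h

end point

end Pool.Agent.MP009fd8Q
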